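import Pool.Agent.R968.GridProb

/-!
# The hyperbolic Poisson-Voronoi graph does not have anchored thin triangles
-/

set_option autoImplicit false

open UpperHalfPlane MeasureTheory Pool.Agent.Y979.HV

namespace Pool.Agent.R968

theorem exists_exponent (c : ℕ) : ∃ n : ℕ, c * (n + 1) ≤ 2 ^ n := by
  refine ⟨2 * (c + 3), ?_⟩
  have h1 : c + 3 < 2 ^ (c + 3) := Nat.lt_two_pow_self
  have h2 : ∀ m : ℕ, 2 * (m + 3) + 1 ≤ 2 ^ (m + 3) := by
    intro m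
    induction m with
    | zero => norm_num
    | succ m ih =>
      have : 2 ^ (m + 1 + 3) = 2 * 2 ^ (m + 3) := by ring
      omega
  have h3 := h2 c
  have h4 : 2 ^ (2 * (c + 3)) = 2 ^ (c + 3) * 2 ^ (c + 3) := by ring
  rw [h4]
  exact Nat.mul_le_mul (by omega) h3

theorem exists_large (K : ℕ) (hK : 1 ≤ K) : ∃ n : ℕ, 10100 ≤ 2 ^ n ∧
    4040 * (2 * ((2 * n + 1) * K) + 1) ≤ 2 ^ n := by
  obtain ⟨n, hn⟩ := exists_exponent (4040 * (4 * K + 1))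
  obtain ⟨u, hu⟩ : ∃ u, u = n * K := ⟨_, rfl⟩
  obtain ⟨v, hv⟩ : ∃ v, v = 2 ^ n := ⟨_, rfl⟩
  have e1 : 4040 * (4 * K + 1) * (n + 1) = 4040 * (4 * u + 4 * K + n + 1) := by
    rw [hu]; ring
  have e2 : 4040 * (2 * ((2 * n + 1) * K) + 1) = 4040 * (4 * u + 2 * K + 1) := by
    rw [hu]; ring
  rw [e1, ← hv] at hn
  refine ⟨n, ?_, ?_⟩
  · rw [← hv]
    omega
  · rw [e2, ← hv]
    omega

theorem anchored {Ω : Type*} [MeasurableSpace Ω] {P : Measure Ω} [IsProbabilityMeasure P]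
    {lam : ℝ} (hlam : 0 < lam) {Q : Ω → Set ℍ} (hQ : IsPoissonProcess P lam Q) :
    ∀ᵐ ω ∂P, (voronoiGraph (Q ω)).Connected ∧
      ∀ (x : Q ω) (δ : ℝ), ¬ ThinAt (voronoiGraph (Q ω)) x δ := by
  filter_upwards [ae_locFin hQ hlam, ae_nonempty hQ hlam, ae_connected hQ hlam,
    ae_all_iff.mpr fun n => exists_grid hQ hlam n] with ω h1 h2 h3 h4
  refine ⟨h3.1, fun x δ hthin => ?_⟩
  obtain ⟨n, e2, e1⟩ := exists_large (16 * ⌈δ⌉₊ + 9) (by omega)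
  obtain ⟨k, hk⟩ := h4 n
  have hs : (0 : ℝ) < 100 ^ k := by positivity
  exact not_thinAt_of_grid h1 h3.1 h2 hs hk e2 e1 x (hthin.mono (Nat.le_ceil δ))

end Pool.Agent.R968
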