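import Pool.Agent.R968.Hyp
import Pool.Agent.Y979.HV.Main

/-!
# A dense grid of points in a window of the hyperbolic plane forces fat geodesic triangles
-/

set_option autoImplicit false

open UpperHalfPlane Real Pool.Agent.Y979.HV

namespace Pool.Agent.R968

noncomputable section

/-- the window of scale `s` -/
def win (s : ℝ) : Set ℍ := {z | -(10 * s) ≤ z.re ∧ z.re < 10 * s ∧ s ≤ z.im ∧ z.im < 100 * s}

/-- the small boxes of the grid -/
def gbx (s : ℝ) (n i j : ℕ) : Set ℍ :=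
  box (Set.Ico (s * (-10 + 20 * (i / 2 ^ n))) (s * (-10 + 20 * ((i + 1) / 2 ^ n))))
    (s * (1 + 99 * (j / 2 ^ n))) (s * (1 + 99 * ((j + 1) / 2 ^ n)))

/-- every box of the grid contains exactly one point -/
def GridOK (s : ℝ) (n : ℕ) (A : Set ℍ) : Prop :=
  ∀ i < 2 ^ n, ∀ j < 2 ^ n, (A ∩ gbx s n i j).encard = 1

/-- open boxes -/
def ob (x1 x2 y1 y2 : ℝ) : Set ℍ := {z | x1 < z.re ∧ z.re < x2 ∧ y1 < z.im ∧ z.im < y2}

theorem isOpen_ob (x1 x2 y1 y2 : ℝ) : IsOpen (ob x1 x2 y1 y2) := by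
  have h1 : Continuous fun z : ℍ => z.re := UpperHalfPlane.continuous_re
  have h2 : Continuous fun z : ℍ => z.im := UpperHalfPlane.continuous_im
  exact ((isOpen_lt continuous_const h1).inter ((isOpen_lt h1 continuous_const).inter
    ((isOpen_lt continuous_const h2).inter (isOpen_lt h2 continuous_const))))

theorem ob_diff_preconnected {x1 x2 y1 y2 : ℝ} (hx : x1 < x2) (hy0 : 0 ≤ y1) (hy : y1 < y2)
    {B : Set ℍ} (hB : B.Finite) : IsPreconnected (ob x1 x2 y1 y2 \ B) := by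
  obtain ⟨g, hg, hgi, hgr⟩ := exists_arc hx
  obtain ⟨f, hf, hfi, hfr⟩ := exists_arc hy
  have hgm : ∀ u, g u ∈ Set.Ioo x1 x2 := fun u => hgr ▸ Set.mem_range_self u
  have hfm : ∀ u, f u ∈ Set.Ioo y1 y2 := fun u => hfr ▸ Set.mem_range_self u
  have hfp : ∀ u, 0 < f u := fun u => lt_of_le_of_lt hy0 (hfm u).1
  let Φ : ℝ × ℝ → ℍ := fun p => ⟨⟨g p.1, f p.2⟩, hfp p.2⟩
  have hΦc : Continuous Φ := by
    have h1 : Continuous fun p : ℝ × ℝ => (⟨g p.1, f p.2⟩ : ℂ) := by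
      have h2 : Continuous fun p : ℝ × ℝ => ((g p.1 : ℝ) : ℂ) + ((f p.2 : ℝ) : ℂ) * Complex.I :=
        (Complex.continuous_ofReal.comp (hg.comp continuous_fst)).add
          ((Complex.continuous_ofReal.comp (hf.comp continuous_snd)).mul continuous_const)
      convert h2 using 2 with p
      apply Complex.ext <;> simp
    rw [UpperHalfPlane.isEmbedding_coe.continuous_iff]
    exact h1
  have hΦi : Function.Injective Φ := by
    intro p q hpq
    have h1 : (Φ p).re = (Φ q).re := by rw [hpq]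
    have h2 : (Φ p).im = (Φ q).im := by rw [hpq]
    exact Prod.ext (hgi h1) (hfi h2)
  have himg : ob x1 x2 y1 y2 \ B = Φ '' (Φ ⁻¹' B)ᶜ := by
    ext z
    constructor
    · rintro ⟨⟨h1, h2, h3, h4⟩, hzB⟩
      obtain ⟨u, hu⟩ : z.re ∈ Set.range g := hgr ▸ ⟨h1, h2⟩
      obtain ⟨v, hv⟩ : z.im ∈ Set.range f := hfr ▸ ⟨h3, h4⟩
      have hz : Φ (u, v) = z := by
        apply UpperHalfPlane.ext
        apply Complex.ext
        · exact hu
        · exact hv
      refine ⟨(u, v), ?_, hz⟩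
      show ¬ (Φ (u, v) ∈ B)
      rw [hz]
      exact hzB
    · rintro ⟨p, hp, rfl⟩
      exact ⟨⟨(hgm p.1).1, (hgm p.1).2, (hfm p.2).1, (hfm p.2).2⟩, hp⟩
  rw [himg]
  have hcount : (Φ ⁻¹' B).Countable := (hB.preimage hΦi.injOn).countable
  have hrank : 1 < Module.rank ℝ (ℝ × ℝ) := by
    rw [rank_prod', Module.rank_self, one_add_one_eq_two]
    exact Cardinal.one_lt_two
  exact (hcount.isConnected_compl_of_one_lt_rank hrank).isPreconnected.image Φ hΦc.continuousOn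

/-- the walk between two cells that meet `U` through cells that meet `U` -/
theorem exists_walk_in {A : Set ℍ} (hA : LocFin A) {U : Set ℍ} (hU : IsOpen U)
    (hUc : ∀ B : Set ℍ, B.Finite → IsPreconnected (U \ B)) (hF : (meeting A U).Finite)
    {x y : A} (hx : x ∈ meeting A U) (hy : y ∈ meeting A U) :
    ∃ p : (voronoiGraph A).Walk x y, p.length < (meeting A U).ncard ∧
      ∀ v ∈ p.support, v ∈ meeting A U := by
  obtain ⟨p, hp⟩ := (reachable_meeting hA hU hUc hF x y hx hy).exists_isPath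
  have : Fintype (meeting A U) := hF.fintype
  have h1 := hp.length_lt
  rw [← Nat.card_eq_fintype_card] at h1
  refine ⟨p.map (SimpleGraph.Embedding.induce (meeting A U)).toHom,
    lt_of_eq_of_lt (SimpleGraph.Walk.length_map _ _) h1, fun v hv => ?_⟩
  erw [SimpleGraph.Walk.support_map] at hv
  obtain ⟨w, _, rfl⟩ := List.mem_map.mp hv
  exact w.2

/-- edges are short where the point set is dense -/
theorem edge_le {A : Set ℍ} {W : Set ℍ} {ε : ℝ} (hε : 0 < ε)
    (hcov : ∀ z ∈ W, ∃ q ∈ A, dist z q ≤ ε) {x y : A}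
    (hx : Metric.closedBall (x : ℍ) (2 * ε) ⊆ W) (h : (voronoiGraph A).Adj x y) :
    dist (x : ℍ) y ≤ 2 * ε := by
  obtain ⟨t, ht1, ht2⟩ := exists_touch h
  have h1 : dist t x = dist t y := le_antisymm (ht1 y y.2) (ht2 x x.2)
  have h2 : dist (x : ℍ) t ≤ ε := by
    by_contra hcon
    push Not at hcon
    set s := min (dist (x : ℍ) t) (2 * ε) with hs
    have hs1 : ε < s := lt_min hcon (by linarith)
    obtain ⟨u, hu1, hu2⟩ := exists_on_segment (z := (x : ℍ)) (w := t) (s := s)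
      (by linarith) (min_le_left _ _)
    have huc : u ∈ cell A x := mem_cell_of_between ht1 (by rw [hu1, hu2]; ring)
    have huW : u ∈ W := by
      apply hx
      rw [Metric.mem_closedBall, dist_comm, hu1]
      exact min_le_right _ _
    obtain ⟨q, hq, hqd⟩ := hcov u huW
    have := huc q hq
    rw [dist_comm u] at this
    linarith
  have h3 := dist_triangle (x : ℍ) t y
  rw [dist_comm (x : ℍ) t] at h2 h3
  linarith

/-- short walks stay close -/
theorem walk_le {A : Set ℍ} {W : Set ℍ} {ε ρ : ℝ} (hε : 0 < ε)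
    (hcov : ∀ z ∈ W, ∃ q ∈ A, dist z q ≤ ε) {x y : A}
    (hx : Metric.closedBall (x : ℍ) (ρ + 2 * ε) ⊆ W) (p : (voronoiGraph A).Walk x y)
    (hp : 2 * ε * p.length ≤ ρ) : dist (x : ℍ) y ≤ ρ := by
  have key : ∀ i ≤ p.length, dist (x : ℍ) (p.getVert i) ≤ 2 * ε * i := by
    intro i
    induction i with
    | zero =>
      intro _
      rw [SimpleGraph.Walk.getVert_zero, dist_self]
      simp
    | succ i ih =>
      intro hi
      have h1 := ih (by omega)
      have hlt : 2 * ε * i ≤ ρ := by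
        refine le_trans ?_ hp
        gcongr
        omega
      have h2 : dist ((p.getVert i : A) : ℍ) (p.getVert (i + 1)) ≤ 2 * ε := by
        refine edge_le hε hcov ?_ (p.adj_getVert_succ (by omega))
        intro z hz
        apply hx
        rw [Metric.mem_closedBall] at hz ⊢
        have h3 := dist_triangle z (p.getVert i : ℍ) x
        rw [dist_comm (p.getVert i : ℍ) (x : ℍ)] at h3
        linarith
      have h3 := dist_triangle (x : ℍ) (p.getVert i) (p.getVert (i + 1))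
      push_cast
      linarith
  have := key p.length le_rfl
  rw [SimpleGraph.Walk.getVert_length] at this
  linarith

theorem dist_sq_le {z w : ℍ} {s a b : ℝ} (hs : 0 < s) (hz : s ≤ z.im) (hw : s ≤ w.im)
    (h1 : |z.re - w.re| ≤ s * a) (h2 : |z.im - w.im| ≤ s * b) :
    dist z w ^ 2 ≤ a ^ 2 + b ^ 2 := by
  have h3 := half_sq_le_cosh (dist z w)
  rw [cosh_dist_eq, norm_sq_eq, norm_sq_eq] at h3
  have hzi : 0 < z.im := z.im_pos
  have hwi : 0 < w.im := w.im_pos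
  have h4 : (z.re ^ 2 + z.im ^ 2 + (w.re ^ 2 + w.im ^ 2) - 2 * (z.re * w.re)) /
      (2 * (z.im * w.im)) - 1 = ((z.re - w.re) ^ 2 + (z.im - w.im) ^ 2) / (2 * (z.im * w.im)) := by
    field_simp
    ring
  rw [h4] at h3
  have h5 : (z.re - w.re) ^ 2 ≤ (s * a) ^ 2 := by
    rw [← sq_abs (z.re - w.re)]
    exact pow_le_pow_left₀ (abs_nonneg _) h1 2
  have h6 : (z.im - w.im) ^ 2 ≤ (s * b) ^ 2 := by
    rw [← sq_abs (z.im - w.im)]
    exact pow_le_pow_left₀ (abs_nonneg _) h2 2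
  have h7 : s * s ≤ z.im * w.im := mul_le_mul hz hw hs.le hzi.le
  have h8 : ((z.re - w.re) ^ 2 + (z.im - w.im) ^ 2) / (2 * (z.im * w.im)) ≤
      (a ^ 2 + b ^ 2) / 2 := by
    rw [div_le_div_iff₀ (by positivity) (by norm_num)]
    nlinarith [sq_nonneg a, sq_nonneg b]
  linarith

/-- each point of the window lies in a box of the grid -/
theorem exists_gbx {s : ℝ} (hs : 0 < s) (n : ℕ) {z : ℍ} (hz : z ∈ win s) :
    ∃ i < 2 ^ n, ∃ j < 2 ^ n, z ∈ gbx s n i j := by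
  obtain ⟨h1, h2, h3, h4⟩ := hz
  have hN : (0 : ℝ) < 2 ^ n := by positivity
  have aux : ∀ u : ℝ, 0 ≤ u → u < 1 → ∃ i : ℕ, i < 2 ^ n ∧ (i : ℝ) / 2 ^ n ≤ u ∧
      u < ((i : ℝ) + 1) / 2 ^ n := by
    intro u hu0 hu1
    refine ⟨⌊u * 2 ^ n⌋₊, ?_, ?_, ?_⟩
    · have : (⌊u * 2 ^ n⌋₊ : ℝ) < 2 ^ n :=
        lt_of_le_of_lt (Nat.floor_le (by positivity)) (by nlinarith)
      exact_mod_cast this
    · rw [div_le_iff₀ hN]
      exact Nat.floor_le (by positivity)
    · rw [lt_div_iff₀ hN]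
      exact Nat.lt_floor_add_one _
  obtain ⟨i, hi, hi1, hi2⟩ := aux ((z.re / s + 10) / 20) (by
    rw [le_div_iff₀ (by norm_num)]
    have : -10 ≤ z.re / s := by rw [le_div_iff₀ hs]; linarith
    linarith) (by
    rw [div_lt_iff₀ (by norm_num)]
    have : z.re / s < 10 := by rw [div_lt_iff₀ hs]; linarith
    linarith)
  obtain ⟨j, hj, hj1, hj2⟩ := aux ((z.im / s - 1) / 99) (by
    rw [le_div_iff₀ (by norm_num)]
    have : 1 ≤ z.im / s := by rw [le_div_iff₀ hs]; linarith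
    linarith) (by
    rw [div_lt_iff₀ (by norm_num)]
    have : z.im / s < 100 := by rw [div_lt_iff₀ hs]; linarith
    linarith)
  have e1 : z.re = s * (-10 + 20 * ((z.re / s + 10) / 20)) := by
    field_simp
    ring
  have e2 : z.im = s * (1 + 99 * ((z.im / s - 1) / 99)) := by
    field_simp
    ring
  refine ⟨i, hi, j, hj, ⟨⟨?_, ?_⟩, ?_, ?_⟩⟩
  · show s * (-10 + 20 * ((i : ℝ) / 2 ^ n)) ≤ z.re
    rw [e1]
    gcongr
  · show z.re < s * (-10 + 20 * (((i : ℝ) + 1) / 2 ^ n))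
    rw [e1]
    gcongr
  · show s * (1 + 99 * ((j : ℝ) / 2 ^ n)) ≤ z.im
    rw [e2]
    gcongr
  · show z.im < s * (1 + 99 * (((j : ℝ) + 1) / 2 ^ n))
    rw [e2]
    gcongr

theorem cover_win {s : ℝ} (hs : 0 < s) {n : ℕ} {A : Set ℍ} (hG : GridOK s n A) {z : ℍ}
    (hz : z ∈ win s) : ∃ q ∈ A, dist z q ≤ 101 / 2 ^ n := by
  obtain ⟨i, hi, j, hj, hzb⟩ := exists_gbx hs n hz
  obtain ⟨q, hq⟩ : (A ∩ gbx s n i j).Nonempty := by
    rw [Set.nonempty_iff_ne_empty]
    intro h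
    have := hG i hi j hj
    rw [h, Set.encard_empty] at this
    exact zero_ne_one this
  obtain ⟨hqA, hqb⟩ := hq
  refine ⟨q, hqA, ?_⟩
  obtain ⟨⟨a1, a2⟩, a3, a4⟩ := hzb
  obtain ⟨⟨b1, b2⟩, b3, b4⟩ := hqb
  have hN : (0 : ℝ) < 2 ^ n := by positivity
  have hj0 : (0 : ℝ) ≤ (j : ℝ) / 2 ^ n := by positivity
  have im1 : s ≤ z.im := by
    have : s * 1 ≤ s * (1 + 99 * ((j : ℝ) / 2 ^ n)) := by gcongr; linarith
    linarith
  have im2 : s ≤ q.im := by
    have : s * 1 ≤ s * (1 + 99 * ((j : ℝ) / 2 ^ n)) := by gcongr; linarith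
    linarith
  have e1 : s * (-10 + 20 * (((i : ℝ) + 1) / 2 ^ n)) =
      s * (-10 + 20 * ((i : ℝ) / 2 ^ n)) + s * (20 / 2 ^ n) := by ring
  have e2 : s * (1 + 99 * (((j : ℝ) + 1) / 2 ^ n)) =
      s * (1 + 99 * ((j : ℝ) / 2 ^ n)) + s * (99 / 2 ^ n) := by ring
  rw [e1] at a2 b2
  rw [e2] at a4 b4
  have h := dist_sq_le hs im1 im2 (a := 20 / 2 ^ n) (b := 99 / 2 ^ n)
    (by rw [abs_le]; constructor <;> linarith) (by rw [abs_le]; constructor <;> linarith)
  have h2 : (20 / 2 ^ n : ℝ) ^ 2 + (99 / 2 ^ n) ^ 2 = (101 / 2 ^ n) ^ 2 := by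
    field_simp
    norm_num
  rw [h2] at h
  exact (sq_le_sq₀ dist_nonneg (by positivity)).mp h

theorem ncard_win {s : ℝ} (hs : 0 < s) {n : ℕ} {A : Set ℍ} (hG : GridOK s n A) :
    (A ∩ win s).Finite ∧ (A ∩ win s).ncard ≤ 2 ^ n * 2 ^ n := by
  classical
  have hsub : A ∩ win s ⊆ ⋃ p ∈ (Finset.range (2 ^ n) ×ˢ Finset.range (2 ^ n)),
      (A ∩ gbx s n p.1 p.2) := by
    rintro z ⟨hzA, hz⟩
    obtain ⟨i, hi, j, hj, hzb⟩ := exists_gbx hs n hz
    refine Set.mem_iUnion₂.mpr ⟨(i, j), ?_, hzA, hzb⟩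
    rw [Finset.mem_product, Finset.mem_range, Finset.mem_range]
    exact ⟨hi, hj⟩
  have hone : ∀ p ∈ (Finset.range (2 ^ n) ×ˢ Finset.range (2 ^ n)),
      (A ∩ gbx s n p.1 p.2).ncard = 1 ∧ (A ∩ gbx s n p.1 p.2).Finite := by
    intro p hp
    rw [Finset.mem_product, Finset.mem_range, Finset.mem_range] at hp
    have h := hG p.1 hp.1 p.2 hp.2
    obtain ⟨q, hq⟩ := Set.encard_eq_one.mp h
    rw [hq]
    exact ⟨Set.ncard_singleton q, Set.finite_singleton q⟩
  have hfin : (⋃ p ∈ (Finset.range (2 ^ n) ×ˢ Finset.range (2 ^ n)),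
      (A ∩ gbx s n p.1 p.2)).Finite :=
    (Finset.finite_toSet _).biUnion fun p hp => (hone p hp).2
  refine ⟨hfin.subset hsub, (Set.ncard_le_ncard hsub hfin).trans ?_⟩
  refine (Finset.set_ncard_biUnion_le _ _).trans ?_
  rw [Finset.sum_congr rfl fun p hp => (hone p hp).1]
  simp

/-- the core of the window -/
def core (s : ℝ) : Set ℍ := ob (-(5 * s)) (5 * s) (10 * s) (20 * s)

theorem near_core {s : ℝ} (hs : 0 < s) {t z : ℍ} (ht : t ∈ core s) (h : dist t z ≤ 1 / 10) :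
    z ∈ win s := by
  obtain ⟨h1, h2, h3, h4⟩ := ht
  have hexp : Real.exp (dist t z) ≤ 2 := by
    have h5 := Real.log_two_gt_d9
    calc Real.exp (dist t z) ≤ Real.exp (Real.log 2) := Real.exp_le_exp.mpr (by linarith)
      _ = 2 := Real.exp_log (by norm_num)
  have hzi := z.im_pos
  have hti := t.im_pos
  have him1 := im_ge_exp t z
  have him2 := im_ge_exp z t
  rw [dist_comm z t] at him2
  have hepos := Real.exp_pos (dist t z)
  have a1 : t.im ≤ z.im * 2 := by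
    rw [div_le_iff₀ hepos] at him1
    nlinarith
  have a2 : z.im ≤ t.im * 2 := by
    rw [div_le_iff₀ hepos] at him2
    nlinarith
  -- the real part
  have hcosh : Real.cosh (dist t z) ≤ 1 + 1 / 100 := by
    refine (Real.cosh_le_exp_half_sq _).trans ?_
    have h6 : dist t z ^ 2 / 2 ≤ 1 / 200 := by
      have : dist t z ^ 2 ≤ (1 / 10) ^ 2 := pow_le_pow_left₀ dist_nonneg h 2
      linarith
    have h7 : Real.exp (dist t z ^ 2 / 2) ≤ Real.exp (1 / 200) := Real.exp_le_exp.mpr h6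
    have h8 : Real.exp (1 / 200) * Real.exp (-(1 / 200)) = 1 := by
      rw [← Real.exp_add]
      norm_num
    have h9 := Real.add_one_le_exp (-(1 / 200 : ℝ))
    have h10 := Real.exp_pos (1 / 200 : ℝ)
    nlinarith
  rw [cosh_dist_eq, norm_sq_eq, norm_sq_eq, div_le_iff₀ (by positivity)] at hcosh
  have hre : (t.re - z.re) ^ 2 ≤ (5 * s) ^ 2 := by
    have h11 : t.im * z.im ≤ (20 * s) * (40 * s) :=
      mul_le_mul h4.le (by linarith) hzi.le (by positivity)
    nlinarith [sq_nonneg (t.im - z.im)]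
  have habs := abs_le_of_sq_le_sq' hre (by positivity)
  refine ⟨by linarith, by linarith, by linarith, by linarith⟩

theorem meeting_core {s : ℝ} (hs : 0 < s) {n : ℕ} {A : Set ℍ} (hG : GridOK s n A) {U : Set ℍ}
    (hU : U ⊆ core s) {x : A} (hx : x ∈ meeting A U) :
    ∃ t ∈ U, dist t (x : ℍ) ≤ 101 / 2 ^ n := by
  obtain ⟨t, htU, htc⟩ := hx
  have htw : t ∈ win s := near_core hs (hU htU) (by rw [dist_self]; norm_num)
  obtain ⟨q, hq, hqd⟩ := cover_win hs hG htw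
  exact ⟨t, htU, (htc q hq).trans hqd⟩

theorem meeting_fin {s : ℝ} (hs : 0 < s) {n : ℕ} (hn : (1010 : ℝ) ≤ 2 ^ n) {A : Set ℍ}
    (hG : GridOK s n A) {U : Set ℍ} (hU : U ⊆ core s) :
    (meeting A U).Finite ∧ (meeting A U).ncard ≤ 2 ^ n * 2 ^ n := by
  obtain ⟨h1, h2⟩ := ncard_win hs hG
  have hsub : Subtype.val '' (meeting A U) ⊆ A ∩ win s := by
    rintro _ ⟨x, hx, rfl⟩
    obtain ⟨t, htU, htd⟩ := meeting_core hs hG hU hx
    refine ⟨x.2, near_core hs (hU htU) (htd.trans ?_)⟩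
    rw [div_le_div_iff₀ (by positivity) (by norm_num)]
    linarith
  have h3 : (Subtype.val '' (meeting A U)).Finite := h1.subset hsub
  refine ⟨h3.of_finite_image Subtype.val_injective.injOn, ?_⟩
  rw [← Set.ncard_image_of_injective _ Subtype.val_injective]
  exact (Set.ncard_le_ncard hsub h1).trans h2

/-- distant sets are distant in the graph -/
theorem far {s : ℝ} (hs : 0 < s) {n : ℕ} (hn : (10100 : ℝ) ≤ 2 ^ n) {A : Set ℍ}
    (hc : (voronoiGraph A).Connected)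
    (hG : GridOK s n A) {U U' : Set ℍ} (hU : U ⊆ core s) (hU' : U' ⊆ core s)
    (hUU : ∀ t ∈ U, ∀ t' ∈ U', 1 / 10 < dist t t') {M : ℕ} (hM : 4040 * (M : ℝ) ≤ 2 ^ n)
    {x y : A} (hx : x ∈ meeting A U) (hy : y ∈ meeting A U') :
    M < (voronoiGraph A).dist x y := by
  by_contra hcon
  push Not at hcon
  obtain ⟨p, hp⟩ := hc.exists_walk_length_eq_dist x y
  obtain ⟨t, htU, htd⟩ := meeting_core hs hG hU hx
  obtain ⟨t', htU', htd'⟩ := meeting_core hs hG hU' hy
  have hN : (0 : ℝ) < 2 ^ n := by positivity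
  have hε : (101 : ℝ) / 2 ^ n ≤ 1 / 100 := by
    rw [div_le_div_iff₀ hN (by norm_num)]
    linarith
  have hε0 : (0 : ℝ) < 101 / 2 ^ n := by positivity
  have h1 : dist (x : ℍ) y ≤ 1 / 20 := by
    refine walk_le hε0 (fun z hz => cover_win hs hG hz) (W := win s) ?_ p ?_
    · intro z hz
      rw [Metric.mem_closedBall] at hz
      refine near_core hs (hU htU) ?_
      have := dist_triangle t x z
      rw [dist_comm (x : ℍ) z] at this
      linarith
    · rw [hp]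
      have h2 : ((voronoiGraph A).dist x y : ℝ) ≤ M := by exact_mod_cast hcon
      calc 2 * (101 / 2 ^ n : ℝ) * ((voronoiGraph A).dist x y : ℝ)
          ≤ 2 * (101 / 2 ^ n : ℝ) * M := by gcongr
        _ ≤ 1 / 20 := by
          rw [mul_div_assoc', div_mul_eq_mul_div, div_le_div_iff₀ hN (by norm_num)]
          linarith
  have h2 := hUU t htU t' htU'
  have h3 := dist_triangle t x t'
  have h4 := dist_triangle (x : ℍ) y t'
  rw [dist_comm (y : ℍ) t'] at h4
  linarith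

theorem dist_gt_of_im {s : ℝ} (hs : 0 < s) {t t' : ℍ} (h : 19 * s < t.im) (h' : t'.im < 11 * s) :
    1 / 10 < dist t t' := by
  by_contra hcon
  push Not at hcon
  have h1 := im_ge_exp t t'
  have h2 : Real.exp (dist t t') ≤ 3 / 2 := by
    have h3 : Real.exp (dist t t') ≤ Real.exp (1 / 10) := Real.exp_le_exp.mpr hcon
    have h8 : Real.exp (1 / 10) * Real.exp (-(1 / 10)) = 1 := by
      rw [← Real.exp_add]
      norm_num
    have h9 := Real.add_one_le_exp (-(1 / 10 : ℝ))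
    have h10 := Real.exp_pos (1 / 10 : ℝ)
    nlinarith
  rw [div_le_iff₀ (Real.exp_pos _)] at h1
  have h5 := t'.im_pos
  nlinarith

theorem dist_gt_of_re {s : ℝ} (hs : 0 < s) {t t' : ℍ} (h : t.re < -(4 * s)) (h' : 4 * s < t'.re)
    (hi : t.im < 20 * s) (hi' : t'.im < 20 * s) : 1 / 10 < dist t t' := by
  by_contra hcon
  push Not at hcon
  have hcosh : Real.cosh (dist t t') ≤ 1 + 1 / 100 := by
    refine (Real.cosh_le_exp_half_sq _).trans ?_
    have h6 : dist t t' ^ 2 / 2 ≤ 1 / 200 := by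
      have : dist t t' ^ 2 ≤ (1 / 10) ^ 2 := pow_le_pow_left₀ dist_nonneg hcon 2
      linarith
    have h7 : Real.exp (dist t t' ^ 2 / 2) ≤ Real.exp (1 / 200) := Real.exp_le_exp.mpr h6
    have h8 : Real.exp (1 / 200) * Real.exp (-(1 / 200)) = 1 := by
      rw [← Real.exp_add]
      norm_num
    have h9 := Real.add_one_le_exp (-(1 / 200 : ℝ))
    have h10 := Real.exp_pos (1 / 200 : ℝ)
    nlinarith
  have h1 := t.im_pos
  have h2 := t'.im_pos
  rw [cosh_dist_eq, norm_sq_eq, norm_sq_eq, div_le_iff₀ (by positivity)] at hcosh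
  have h11 : t.im * t'.im ≤ (20 * s) * (20 * s) :=
    mul_le_mul hi.le hi'.le h2.le (by positivity)
  have h12 : (8 * s) ^ 2 ≤ (t'.re - t.re) ^ 2 := pow_le_pow_left₀ (by positivity) (by linarith) 2
  nlinarith [sq_nonneg (t.im - t'.im)]

/-- a window with a fine grid forces fat triangles -/
theorem not_thinAt_of_grid {A : Set ℍ} (hA : LocFin A) (hc : (voronoiGraph A).Connected)
    (hne : A.Nonempty) {s : ℝ} (hs : 0 < s) {n : ℕ} (hG : GridOK s n A) {δ : ℕ}
    (hn : 10100 ≤ 2 ^ n)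
    (hn' : 4040 * (2 * ((2 * n + 1) * (16 * δ + 9)) + 1) ≤ 2 ^ n) (x : A) :
    ¬ ThinAt (voronoiGraph A) x δ := by
  have hnr : (10100 : ℝ) ≤ 2 ^ n := by exact_mod_cast hn
  have hM : 4040 * ((2 * ((2 * n + 1) * (16 * δ + 9)) + 1 : ℕ) : ℝ) ≤ 2 ^ n := by
    exact_mod_cast hn'
  -- the four corridors
  have hT : ob (-(5 * s)) (5 * s) (19 * s) (20 * s) ⊆ core s := by
    rintro z ⟨h1, h2, h3, h4⟩
    exact ⟨h1, h2, by linarith, h4⟩
  have hB : ob (-(5 * s)) (5 * s) (10 * s) (11 * s) ⊆ core s := by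
    rintro z ⟨h1, h2, h3, h4⟩
    exact ⟨h1, h2, h3, by linarith⟩
  have hL : ob (-(5 * s)) (-(4 * s)) (10 * s) (20 * s) ⊆ core s := by
    rintro z ⟨h1, h2, h3, h4⟩
    exact ⟨h1, by linarith, h3, h4⟩
  have hR : ob (4 * s) (5 * s) (10 * s) (20 * s) ⊆ core s := by
    rintro z ⟨h1, h2, h3, h4⟩
    exact ⟨by linarith, h2, h3, h4⟩
  have walk : ∀ {x1 x2 y1 y2 : ℝ}, x1 < x2 → 0 ≤ y1 → y1 < y2 → ob x1 x2 y1 y2 ⊆ core s →
      ∀ {u v : A}, u ∈ meeting A (ob x1 x2 y1 y2) → v ∈ meeting A (ob x1 x2 y1 y2) →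
      ∃ p : (voronoiGraph A).Walk u v, p.length ≤ 2 ^ n * 2 ^ n ∧
        ∀ w ∈ p.support, w ∈ meeting A (ob x1 x2 y1 y2) := by
    intro x1 x2 y1 y2 hx hy0 hy hsub u v hu hv
    obtain ⟨hf, hcard⟩ := meeting_fin hs (by linarith) hG hsub
    obtain ⟨p, hp, hp'⟩ := exists_walk_in hA (isOpen_ob x1 x2 y1 y2)
      (fun B hB => ob_diff_preconnected hx hy0 hy hB) hf hu hv
    exact ⟨p, by omega, hp'⟩
  -- the corners
  have corner : ∀ (a b : ℝ) (hb : 0 < b), ∃ q : A, (⟨⟨a, b⟩, hb⟩ : ℍ) ∈ cell A q := by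
    intro a b hb
    obtain ⟨q, hq, hqc⟩ := exists_nucleus hA hne (⟨⟨a, b⟩, hb⟩ : ℍ)
    exact ⟨⟨q, hq⟩, hqc⟩
  have hb1 : 0 < 39 / 2 * s := by positivity
  have hb2 : 0 < 21 / 2 * s := by positivity
  obtain ⟨p1, hp1⟩ := corner (-(9 / 2 * s)) (39 / 2 * s) hb1
  obtain ⟨p2, hp2⟩ := corner (9 / 2 * s) (39 / 2 * s) hb1
  obtain ⟨p3, hp3⟩ := corner (9 / 2 * s) (21 / 2 * s) hb2
  obtain ⟨p4, hp4⟩ := corner (-(9 / 2 * s)) (21 / 2 * s) hb2
  have mem : ∀ {a b : ℝ} {hb : 0 < b} {q : A}, (⟨⟨a, b⟩, hb⟩ : ℍ) ∈ cell A q →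
      ∀ {x1 x2 y1 y2 : ℝ}, x1 < a → a < x2 → y1 < b → b < y2 → q ∈ meeting A (ob x1 x2 y1 y2) := by
    intro a b hb q hq x1 x2 y1 y2 h1 h2 h3 h4
    exact ⟨⟨⟨a, b⟩, hb⟩, ⟨h1, h2, h3, h4⟩, hq⟩
  obtain ⟨T, hT1, hT2⟩ := walk (by linarith) (by positivity) (by linarith) hT
    (mem hp1 (by linarith) (by linarith) (by linarith) (by linarith))
    (mem hp2 (by linarith) (by linarith) (by linarith) (by linarith))
  obtain ⟨R, hR1, hR2⟩ := walk (by linarith) (by positivity) (by linarith) hR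
    (mem hp2 (by linarith) (by linarith) (by linarith) (by linarith))
    (mem hp3 (by linarith) (by linarith) (by linarith) (by linarith))
  obtain ⟨L, hL1, hL2⟩ := walk (by linarith) (by positivity) (by linarith) hL
    (mem hp1 (by linarith) (by linarith) (by linarith) (by linarith))
    (mem hp4 (by linarith) (by linarith) (by linarith) (by linarith))
  obtain ⟨B, hB1, hB2⟩ := walk (by linarith) (by positivity) (by linarith) hB
    (mem hp4 (by linarith) (by linarith) (by linarith) (by linarith))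
    (mem hp3 (by linarith) (by linarith) (by linarith) (by linarith))
  have hk : 2 ^ (2 * n + 1) = 2 ^ n * 2 ^ n + 2 ^ n * 2 ^ n := by ring
  refine not_thinAt hc (k := 2 * n + 1) T R L B (by omega) (by omega) ?_ ?_
  · intro v hv w hw
    refine far hs hnr hc hG hT hB ?_ hM (hT2 v hv) (hB2 w hw)
    rintro t ⟨_, _, h3, _⟩ t' ⟨_, _, _, h4⟩
    exact dist_gt_of_im hs h3 h4
  · intro v hv w hw
    refine far hs hnr hc hG hL hR ?_ hM (hL2 v hv) (hR2 w hw)
    rintro t ⟨_, h2, _, h3⟩ t' ⟨h4, _, _, h5⟩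
    exact dist_gt_of_re hs h2 h4 h3 h5

end

end Pool.Agent.R968
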