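import Pool.Agent.R968.Grid

/-!
# Almost surely there is a window with a fine grid
-/

set_option autoImplicit false

open UpperHalfPlane Real MeasureTheory ProbabilityTheory Pool.Agent.Y979.HV
open scoped ENNReal

namespace Pool.Agent.R968

noncomputable section

variable {Ω : Type*} [MeasurableSpace Ω] {P : Measure Ω} {lam : ℝ} {Q : Ω → Set ℍ}

/-- the boxes of all the grids -/
def bxs (n : ℕ) (a : ℕ × ℕ × ℕ) : Set ℍ := gbx (100 ^ a.1) n a.2.1 a.2.2

theorem measurableSet_bxs (n : ℕ) (a : ℕ × ℕ × ℕ) : MeasurableSet (bxs n a) :=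
  measurableSet_box measurableSet_Ico _ _

theorem bxs_im {n : ℕ} {a : ℕ × ℕ × ℕ} (ha : a.2.2 < 2 ^ n) {z : ℍ} (hz : z ∈ bxs n a) :
    (100 : ℝ) ^ a.1 ≤ z.im ∧ z.im < 100 ^ (a.1 + 1) := by
  obtain ⟨_, h3, h4⟩ := hz
  have hs : (0 : ℝ) < 100 ^ a.1 := by positivity
  have hN : (0 : ℝ) < 2 ^ n := by positivity
  constructor
  · refine le_trans ?_ h3
    have : (0 : ℝ) ≤ (a.2.2 : ℝ) / 2 ^ n := by positivity
    nlinarith
  · refine lt_of_lt_of_le h4 ?_
    have h5 : ((a.2.2 : ℝ) + 1) / 2 ^ n ≤ 1 := by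
      rw [div_le_one hN]
      exact_mod_cast ha
    rw [pow_succ]
    nlinarith

theorem index_unique {n i i' : ℕ} {x : ℝ} (h1 : (i : ℝ) / 2 ^ n ≤ x)
    (h2 : x < ((i : ℝ) + 1) / 2 ^ n) (h1' : (i' : ℝ) / 2 ^ n ≤ x)
    (h2' : x < ((i' : ℝ) + 1) / 2 ^ n) : i = i' := by
  have hN : (0 : ℝ) < 2 ^ n := by positivity
  rw [div_le_iff₀ hN] at h1 h1'
  rw [lt_div_iff₀ hN] at h2 h2'
  have e1 : (i : ℝ) < (i' : ℝ) + 1 := by linarith
  have e2 : (i' : ℝ) < (i : ℝ) + 1 := by linarith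
  have e3 : i < i' + 1 := by exact_mod_cast e1
  have e4 : i' < i + 1 := by exact_mod_cast e2
  omega

theorem bxs_disjoint {n : ℕ} {a b : ℕ × ℕ × ℕ} (ha : a.2.2 < 2 ^ n) (hb : b.2.2 < 2 ^ n)
    (hab : a ≠ b) : Disjoint (bxs n a) (bxs n b) := by
  rw [Set.disjoint_left]
  intro z hz hz'
  apply hab
  obtain ⟨e1, e2⟩ := bxs_im ha hz
  obtain ⟨e3, e4⟩ := bxs_im hb hz'
  have h1 : a.1 < b.1 + 1 := by
    have : (100 : ℝ) ^ a.1 < 100 ^ (b.1 + 1) := lt_of_le_of_lt e1 e4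
    exact (pow_lt_pow_iff_right₀ (by norm_num)).mp this
  have h2 : b.1 < a.1 + 1 := by
    have : (100 : ℝ) ^ b.1 < 100 ^ (a.1 + 1) := lt_of_le_of_lt e3 e2
    exact (pow_lt_pow_iff_right₀ (by norm_num)).mp this
  have h3 : a.1 = b.1 := by omega
  have hs : (0 : ℝ) < 100 ^ a.1 := by positivity
  obtain ⟨⟨r1, r2⟩, r3, r4⟩ := hz
  obtain ⟨⟨s1, s2⟩, s3, s4⟩ := hz'
  rw [← h3] at s1 s2 s3 s4
  have u : ∀ c : ℝ, ∀ x : ℝ, 100 ^ a.1 * c ≤ x ↔ c ≤ x / 100 ^ a.1 := fun c x => by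
    rw [le_div_iff₀ hs, mul_comm]
  have u' : ∀ c : ℝ, ∀ x : ℝ, x < 100 ^ a.1 * c ↔ x / 100 ^ a.1 < c := fun c x => by
    rw [div_lt_iff₀ hs, mul_comm]
  rw [u] at r1 r3 s1 s3
  rw [u'] at r2 r4 s2 s4
  have h4 : a.2.1 = b.2.1 := by
    refine index_unique (n := n) (x := (z.re / 100 ^ a.1 + 10) / 20) ?_ ?_ ?_ ?_
    · linarith
    · linarith
    · linarith
    · linarith
  have h5 : a.2.2 = b.2.2 := by
    refine index_unique (n := n) (x := (z.im / 100 ^ a.1 - 1) / 99) ?_ ?_ ?_ ?_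
    · linarith
    · linarith
    · linarith
    · linarith
  exact Prod.ext h3 (Prod.ext h4 h5)

theorem volume_bxs (n : ℕ) (a : ℕ × ℕ × ℕ) : volume (bxs n a) =
    ENNReal.ofReal (20 / 2 ^ n * (1 / (1 + 99 * (a.2.2 / 2 ^ n)) -
      1 / (1 + 99 * ((a.2.2 + 1) / 2 ^ n)))) := by
  have hs : (0 : ℝ) < 100 ^ a.1 := by positivity
  have hN : (0 : ℝ) < 2 ^ n := by positivity
  have h1 : (0 : ℝ) < 1 + 99 * (a.2.2 / 2 ^ n) := by positivity
  have h2 : (0 : ℝ) < 1 + 99 * ((a.2.2 + 1) / 2 ^ n) := by positivity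
  have h3 : (1 : ℝ) + 99 * (a.2.2 / 2 ^ n) ≤ 1 + 99 * ((a.2.2 + 1) / 2 ^ n) := by
    gcongr
    linarith
  show volume (box _ _ _) = _
  rw [volume_box measurableSet_Ico (by positivity) (mul_le_mul_of_nonneg_left h3 hs.le),
    Real.volume_Ico,
    ← ENNReal.ofReal_mul (by
      have : (100 : ℝ) ^ a.1 * (-10 + 20 * (a.2.1 / 2 ^ n)) ≤
        100 ^ a.1 * (-10 + 20 * ((a.2.1 + 1) / 2 ^ n)) := by gcongr; linarith
      linarith)]
  congr 1
  field_simp
  ring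

/-- the event that the box `a` contains exactly one point -/
def ev (Q : Ω → Set ℍ) (n : ℕ) (a : ℕ × ℕ × ℕ) : Set Ω :=
  {ω | (Q ω ∩ bxs n a).encard = 1}

theorem measurableSet_ev (hQ : IsPoissonProcess P lam Q) (n : ℕ) (a : ℕ × ℕ × ℕ) :
    MeasurableSet (ev Q n a) :=
  hQ.measurable_count _ (measurableSet_bxs n a) (measurableSet_singleton 1)

/-- the probability of the event -/
def pr (lam : ℝ) (n : ℕ) (j : ℕ) : ℝ≥0∞ :=
  ENNReal.ofReal (Real.exp (-(lam * (20 / 2 ^ n * (1 / (1 + 99 * ((j : ℝ) / 2 ^ n)) -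
      1 / (1 + 99 * (((j : ℝ) + 1) / 2 ^ n)))))) *
    (lam * (20 / 2 ^ n * (1 / (1 + 99 * ((j : ℝ) / 2 ^ n)) -
      1 / (1 + 99 * (((j : ℝ) + 1) / 2 ^ n))))))

theorem vol_pos (n j : ℕ) : (0 : ℝ) < 20 / 2 ^ n * (1 / (1 + 99 * ((j : ℝ) / 2 ^ n)) -
      1 / (1 + 99 * (((j : ℝ) + 1) / 2 ^ n))) := by
  have h1 : (0 : ℝ) < 1 + 99 * (j / 2 ^ n) := by positivity
  have h3 : (1 : ℝ) + 99 * (j / 2 ^ n) < 1 + 99 * ((j + 1) / 2 ^ n) := by
    gcongr
    linarith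
  have h4 : 1 / (1 + 99 * (((j : ℝ) + 1) / 2 ^ n)) < 1 / (1 + 99 * ((j : ℝ) / 2 ^ n)) :=
    one_div_lt_one_div_of_lt h1 h3
  have h5 : (0 : ℝ) < 20 / 2 ^ n := by positivity
  exact mul_pos h5 (sub_pos.mpr h4)

theorem prob_ev (hQ : IsPoissonProcess P lam Q) (n : ℕ) (a : ℕ × ℕ × ℕ) :
    P (ev Q n a) = pr lam n a.2.2 := by
  have h := hQ.law_count (bxs n a) (measurableSet_bxs n a)
    (by rw [volume_bxs]; exact ENNReal.ofReal_ne_top) 1
  rw [volume_bxs, ENNReal.toReal_ofReal (vol_pos n a.2.2).le] at h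
  rw [pr]
  show P {ω | (Q ω ∩ bxs n a).encard = 1} = _
  simpa using h

theorem pr_pos (hlam : 0 < lam) (n j : ℕ) : 0 < pr lam n j := by
  rw [pr, ENNReal.ofReal_pos]
  have := vol_pos n j
  positivity

theorem prob_inter (hQ : IsPoissonProcess P lam Q) (n : ℕ) (F : Finset (ℕ × ℕ × ℕ))
    (hF : ∀ a ∈ F, a.2.2 < 2 ^ n) : P (⋂ a ∈ F, ev Q n a) = ∏ a ∈ F, P (ev Q n a) := by
  classical
  set e := F.equivFin.symm with he
  have hind := hQ.indep_count F.card (fun i => bxs n (e i).1)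
    (fun i => measurableSet_bxs n _) (fun i j hij => bxs_disjoint (hF _ (e i).2) (hF _ (e j).2)
      (fun h => hij (e.injective (Subtype.ext h))))
  have h := hind.measure_inter_preimage_eq_mul Finset.univ (sets := fun _ => {1})
    (fun i _ => measurableSet_singleton 1)
  have h1 : (⋂ i ∈ (Finset.univ : Finset (Fin F.card)),
      (fun ω => (Q ω ∩ bxs n (e i).1).encard) ⁻¹' {1}) = ⋂ a ∈ F, ev Q n a := by
    ext ω
    simp only [Finset.mem_univ, Set.iInter_true, Set.mem_iInter]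
    constructor
    · intro hω a ha
      have := hω (e.symm ⟨a, ha⟩)
      rw [Equiv.apply_symm_apply] at this
      exact this
    · intro hω i
      exact hω (e i).1 (e i).2
  rw [h1] at h
  rw [h]
  have h2 : ∏ i : Fin F.card, P ((fun ω => (Q ω ∩ bxs n (e i).1).encard) ⁻¹' {1}) =
      ∏ i : Fin F.card, P (ev Q n (e i).1) := rfl
  rw [h2, Equiv.prod_comp e (fun a : F => P (ev Q n a.1)), Finset.prod_coe_sort F
    (fun a => P (ev Q n a))]

/-- the event that the grid of scale `100 ^ k` is good -/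
def gev (Q : Ω → Set ℍ) (n k : ℕ) : Set Ω := {ω | GridOK (100 ^ k) n (Q ω)}

/-- the indices of one grid -/
def idx (n : ℕ) : Finset (ℕ × ℕ) := Finset.range (2 ^ n) ×ˢ Finset.range (2 ^ n)

omit [MeasurableSpace Ω] in
theorem inter_gev (n : ℕ) (S : Finset ℕ) :
    (⋂ k ∈ S, gev Q n k) = ⋂ a ∈ S ×ˢ idx n, ev Q n a := by
  ext ω
  simp only [Set.mem_iInter]
  constructor
  · rintro h ⟨k, i, j⟩ hk
    simp only [idx, Finset.mem_product, Finset.mem_range] at hk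
    exact h k hk.1 i hk.2.1 j hk.2.2
  · intro h k hk i hi j hj
    refine h (k, i, j) ?_
    simp only [idx, Finset.mem_product, Finset.mem_range]
    exact ⟨hk, hi, hj⟩

omit [MeasurableSpace Ω] in
theorem gev_eq (n k : ℕ) : gev Q n k = ⋂ a ∈ ({k} : Finset ℕ) ×ˢ idx n, ev Q n a := by
  rw [← inter_gev]
  simp

theorem measurableSet_gev (hQ : IsPoissonProcess P lam Q) (n k : ℕ) :
    MeasurableSet (gev Q n k) := by
  rw [gev_eq]
  exact Finset.measurableSet_biInter _ fun a _ => measurableSet_ev hQ n a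

theorem prob_inter_gev (hQ : IsPoissonProcess P lam Q) (n : ℕ) (S : Finset ℕ) :
    P (⋂ k ∈ S, gev Q n k) = ∏ _k ∈ S, ∏ b ∈ idx n, pr lam n b.2 := by
  rw [inter_gev, prob_inter hQ n _ (by
    rintro ⟨k, i, j⟩ hk
    simp only [idx, Finset.mem_product, Finset.mem_range] at hk
    exact hk.2.2), Finset.prod_product]
  refine Finset.prod_congr rfl fun k _ => Finset.prod_congr rfl fun b _ => ?_
  exact prob_ev hQ n (k, b)

theorem prob_gev (hQ : IsPoissonProcess P lam Q) (n k : ℕ) :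
    P (gev Q n k) = ∏ b ∈ idx n, pr lam n b.2 := by
  have := prob_inter_gev hQ n {k}
  simpa using this

theorem exists_grid [IsProbabilityMeasure P] (hQ : IsPoissonProcess P lam Q) (hlam : 0 < lam)
    (n : ℕ) : ∀ᵐ ω ∂P, ∃ k : ℕ, GridOK (100 ^ k) n (Q ω) := by
  have hind : iIndepSet (gev Q n) P := by
    rw [iIndepSet_iff_meas_biInter fun k => measurableSet_gev hQ n k]
    intro S
    rw [prob_inter_gev hQ n S]
    exact Finset.prod_congr rfl fun k _ => (prob_gev hQ n k).symm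
  have hsum : ∑' k, P (gev Q n k) = ⊤ := by
    simp_rw [prob_gev hQ n]
    refine ENNReal.tsum_const_eq_top_of_ne_zero ?_
    rw [Finset.prod_ne_zero_iff]
    exact fun b _ => (pr_pos hlam n b.2).ne'
  have h := measure_limsup_eq_one (fun k => measurableSet_gev hQ n k) hind hsum
  have h2 : ∀ᵐ ω ∂P, ω ∈ Filter.limsup (gev Q n) Filter.atTop := by
    rw [ae_iff]
    have hm : MeasurableSet (Filter.limsup (gev Q n) Filter.atTop) :=
      MeasurableSet.measurableSet_limsup fun k => measurableSet_gev hQ n k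
    have := prob_compl_eq_zero_iff (μ := P) hm
    exact this.mpr h
  filter_upwards [h2] with ω hω
  rw [Filter.mem_limsup_iff_frequently_mem] at hω
  obtain ⟨k, hk⟩ := hω.exists
  exact ⟨k, hk⟩

end

end Pool.Agent.R968
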