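import Mathlib

/-!
# Thin triangles at one vertex imply the four point condition, and geodesics stay near paths
-/

set_option autoImplicit false

namespace Pool.Agent.R968

open SimpleGraph

variable {V : Type*} {G : SimpleGraph V}

/-- The closed walk `p`, `q`, `r` (three walks joining `x` to `y`, `y` to `z` and `z` to `x`) is
`δ`-thin: every vertex of each side is at graph distance at most `δ` from a vertex of the union of
the two other sides. -/
def Thin (G : SimpleGraph V) (δ : ℝ) {x y z : V} (p : G.Walk x y) (q : G.Walk y z)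
    (r : G.Walk z x) : Prop :=
  (∀ v ∈ p.support, ∃ w, (w ∈ q.support ∨ w ∈ r.support) ∧ (G.dist v w : ℝ) ≤ δ) ∧
  (∀ v ∈ q.support, ∃ w, (w ∈ r.support ∨ w ∈ p.support) ∧ (G.dist v w : ℝ) ≤ δ) ∧
  (∀ v ∈ r.support, ∃ w, (w ∈ p.support ∨ w ∈ q.support) ∧ (G.dist v w : ℝ) ≤ δ)

/-- Every geodesic triangle with vertex `x` is `δ`-thin. -/
def ThinAt (G : SimpleGraph V) (x : V) (δ : ℝ) : Prop :=
  ∀ (y z : V) (p : G.Walk x y) (q : G.Walk y z) (r : G.Walk z x),
    p.length = G.dist x y → q.length = G.dist y z → r.length = G.dist z x → Thin G δ p q r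

theorem ThinAt.mono {x : V} {δ δ' : ℝ} (h : ThinAt G x δ) (hδ : δ ≤ δ') : ThinAt G x δ' := by
  intro y z p q r hp hq hr
  obtain ⟨h1, h2, h3⟩ := h y z p q r hp hq hr
  refine ⟨fun v hv => ?_, fun v hv => ?_, fun v hv => ?_⟩
  · obtain ⟨w, hw, hd⟩ := h1 v hv
    exact ⟨w, hw, hd.trans hδ⟩
  · obtain ⟨w, hw, hd⟩ := h2 v hv
    exact ⟨w, hw, hd.trans hδ⟩
  · obtain ⟨w, hw, hd⟩ := h3 v hv
    exact ⟨w, hw, hd.trans hδ⟩

/-- on a geodesic, distances are differences of indices -/
theorem dist_getVert_le (hc : G.Connected) {a b : V} (p : G.Walk a b)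
    (hp : p.length = G.dist a b) {i j : ℕ} (hij : i ≤ j) (hj : j ≤ p.length) :
    G.dist (p.getVert i) (p.getVert j) = j - i := by
  have h1 : G.dist a (p.getVert i) ≤ i := by
    have := dist_le (p.take i)
    rw [Walk.take_length] at this
    exact this.trans (min_le_left _ _)
  have h2 : G.dist (p.getVert j) b ≤ p.length - j := by
    have := dist_le (p.drop j)
    rw [Walk.drop_length] at this
    exact this
  have h3 : G.dist (p.getVert i) (p.getVert j) ≤ j - i := by
    have h := dist_le ((p.drop i).take (j - i))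
    rw [Walk.take_length] at h
    have h' : (p.drop i).getVert (j - i) = p.getVert j := by
      rw [Walk.drop_getVert]
      congr 1
      omega
    rw [h'] at h
    exact h.trans (min_le_left _ _)
  have h4 := hc.dist_triangle (u := a) (v := p.getVert i) (w := b)
  have h5 := hc.dist_triangle (u := p.getVert i) (v := p.getVert j) (w := b)
  omega

theorem dist_getVert (hc : G.Connected) {a b : V} (p : G.Walk a b)
    (hp : p.length = G.dist a b) {i j : ℕ} (hi : i ≤ p.length) (hj : j ≤ p.length) :
    G.dist (p.getVert i) (p.getVert j) = (j - i) + (i - j) := by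
  rcases le_total i j with h | h
  · rw [dist_getVert_le hc p hp h hj]
    omega
  · rw [dist_comm, dist_getVert_le hc p hp h hi]
    omega

/-- along a sequence that starts near `P` and is always near `P` or `P'`, there is an element near
both -/
theorem exists_switch {n : ℕ} {P P' : ℕ → Prop} (h0 : P 0) (h : ∀ i ≤ n, P i ∨ P' i)
    (hn : P' n) : ∃ i ≤ n, P i ∧ (P' i ∨ (i + 1 ≤ n ∧ P' (i + 1))) := by
  by_contra hcon
  push Not at hcon
  have hall : ∀ i ≤ n, P i := by
    intro i
    induction i with
    | zero => exact fun _ => h0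
    | succ i ih =>
      intro hi
      have h1 := ih (by omega)
      have h2 := (hcon i (by omega) h1).2 hi
      exact (h (i + 1) hi).resolve_right h2
  exact (hcon n le_rfl (hall n le_rfl)).1 hn

theorem fellow (hc : G.Connected) {x : V} {δ : ℕ} (h : ThinAt G x δ) {y z : V}
    (p : G.Walk x y) (r : G.Walk x z) (hp : p.length = G.dist x y) (hr : r.length = G.dist x z)
    {t : ℕ} (ht : 2 * t + G.dist y z ≤ G.dist x y + G.dist x z) :
    G.dist (p.getVert t) (r.getVert t) ≤ 8 * δ + 4 := by
  obtain ⟨q, hq⟩ := hc.exists_walk_length_eq_dist y z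
  obtain ⟨hA, hB, _⟩ := h y z p q r.reverse hp hq (by rw [Walk.length_reverse, hr, dist_comm])
  have tri : ∀ a b c : V, G.dist a c ≤ G.dist a b + G.dist b c := fun a b c => hc.dist_triangle
  have sym : ∀ a b : V, G.dist a b = G.dist b a := fun a b => dist_comm
  have htp : t ≤ p.length := by
    have := tri x y z
    have := tri x z y
    have := sym y z
    omega
  have htr : t ≤ r.length := by
    have := tri x y z
    have := tri x z y
    have := sym y z
    omega
  -- a vertex of `q` which is near both sides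
  obtain ⟨i, hi, ⟨a, ha, hda⟩, b, hb, hdb⟩ : ∃ i ≤ q.length,
      (∃ a ∈ p.support, G.dist (q.getVert i) a ≤ δ) ∧
      (∃ b ∈ r.support, G.dist (q.getVert i) b ≤ δ + 1) := by
    obtain ⟨i, hi, h1, h2⟩ := exists_switch (n := q.length)
      (P := fun i => ∃ a ∈ p.support, G.dist (q.getVert i) a ≤ δ)
      (P' := fun i => ∃ b ∈ r.support, G.dist (q.getVert i) b ≤ δ) (by
        refine ⟨y, p.end_mem_support, ?_⟩
        rw [Walk.getVert_zero, dist_self]
        exact Nat.zero_le _) (by
        intro i _
        obtain ⟨w, hw, hd⟩ := hB (q.getVert i) (q.getVert_mem_support i)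
        have hd' : G.dist (q.getVert i) w ≤ δ := by exact_mod_cast hd
        rcases hw with hw | hw
        · rw [Walk.support_reverse, List.mem_reverse] at hw
          exact Or.inr ⟨w, hw, hd'⟩
        · exact Or.inl ⟨w, hw, hd'⟩) (by
        refine ⟨z, r.end_mem_support, ?_⟩
        rw [Walk.getVert_length, dist_self]
        exact Nat.zero_le _)
    refine ⟨i, hi, h1, ?_⟩
    rcases h2 with ⟨b, hb, hd⟩ | ⟨hi1, b, hb, hd⟩
    · exact ⟨b, hb, by omega⟩
    · refine ⟨b, hb, ?_⟩
      have h3 := tri (q.getVert i) (q.getVert (i + 1)) b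
      have h4 := dist_getVert hc q hq hi hi1
      omega
  rw [Walk.mem_support_iff_exists_getVert] at ha hb
  obtain ⟨s, hsa, hs⟩ := ha
  obtain ⟨s', hsb, hs'⟩ := hb
  obtain ⟨v, hv⟩ : ∃ v, v = q.getVert i := ⟨_, rfl⟩
  obtain ⟨u, hu⟩ : ∃ u, u = p.getVert t := ⟨_, rfl⟩
  obtain ⟨w, hw⟩ : ∃ w, w = r.getVert t := ⟨_, rfl⟩
  rw [← hv] at hda hdb
  rw [← hu, ← hw]
  -- distances
  have e1 : G.dist x a = s := by
    have := dist_getVert hc p hp (Nat.zero_le _) hs
    rw [Walk.getVert_zero, hsa] at this
    omega
  have e2 : G.dist a y = p.length - s := by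
    have := dist_getVert hc p hp hs le_rfl
    rw [Walk.getVert_length, hsa] at this
    omega
  have e3 : G.dist x b = s' := by
    have := dist_getVert hc r hr (Nat.zero_le _) hs'
    rw [Walk.getVert_zero, hsb] at this
    omega
  have e4 : G.dist b z = r.length - s' := by
    have := dist_getVert hc r hr hs' le_rfl
    rw [Walk.getVert_length, hsb] at this
    omega
  have e5 : G.dist y v = i := by
    have := dist_getVert hc q hq (Nat.zero_le _) hi
    rw [Walk.getVert_zero, ← hv] at this
    omega
  have e6 : G.dist v z = q.length - i := by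
    have := dist_getVert hc q hq hi le_rfl
    rw [Walk.getVert_length, ← hv] at this
    omega
  have e7 : G.dist u a = (s - t) + (t - s) := by
    have := dist_getVert hc p hp htp hs
    rw [hsa, ← hu] at this
    exact this
  have e8 : G.dist b w = (t - s') + (s' - t) := by
    have := dist_getVert hc r hr hs' htr
    rw [hsb, ← hw] at this
    exact this
  have e9 : G.dist x u = t := by
    have := dist_getVert hc p hp (Nat.zero_le _) htp
    rw [Walk.getVert_zero, ← hu] at this
    omega
  have t1 := tri u a w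
  have t2 := tri a b w
  have t3 := tri a v b
  have t4 := tri x a b
  have t5 := tri x b a
  have t6 := tri a v y
  have t7 := tri v a y
  have t8 := tri b v z
  have t9 := tri v b z
  have c1 := sym a v
  have c2 := sym v y
  have c3 := sym b v
  have c4 := sym a b
  obtain ⟨v1, hv1, hd1⟩ := hA u (hu ▸ p.getVert_mem_support t)
  have hd1' : G.dist u v1 ≤ δ := by exact_mod_cast hd1
  rcases le_or_gt s t with hst | hst
  · omega
  · rcases hv1 with hv1 | hv1
    · rw [Walk.mem_support_iff_exists_getVert] at hv1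
      obtain ⟨j, hj, hjl⟩ := hv1
      have f1 : G.dist y v1 = j := by
        have := dist_getVert hc q hq (Nat.zero_le _) hjl
        rw [Walk.getVert_zero, hj] at this
        omega
      have f2 : G.dist v1 z = q.length - j := by
        have := dist_getVert hc q hq hjl le_rfl
        rw [Walk.getVert_length, hj] at this
        omega
      have f3 : G.dist u y = p.length - t := by
        have := dist_getVert hc p hp htp le_rfl
        rw [Walk.getVert_length, ← hu] at this
        omega
      have g1 := tri u v1 y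
      have g2 := tri x u z
      have g3 := tri u v1 z
      have g4 := sym v1 y
      rcases le_total j i with hji | hji
      · omega
      · omega
    · rw [Walk.support_reverse, List.mem_reverse, Walk.mem_support_iff_exists_getVert] at hv1
      obtain ⟨j, hj, hjl⟩ := hv1
      have f1 : G.dist x v1 = j := by
        have := dist_getVert hc r hr (Nat.zero_le _) hjl
        rw [Walk.getVert_zero, hj] at this
        omega
      have f2 : G.dist v1 w = (t - j) + (j - t) := by
        have := dist_getVert hc r hr hjl htr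
        rw [hj, ← hw] at this
        exact this
      have g1 := tri x u v1
      have g2 := tri x v1 u
      have g3 := sym v1 u
      have g4 := tri u v1 w
      omega

/-- the four point condition with base point `x` -/
theorem four_x (hc : G.Connected) {x : V} {δ : ℕ} (h : ThinAt G x δ) (a b c : V) :
    G.dist a c + G.dist x b ≤ G.dist a b + G.dist x c + (16 * δ + 9) ∨
    G.dist a c + G.dist x b ≤ G.dist b c + G.dist x a + (16 * δ + 9) := by
  obtain ⟨pa, ha⟩ := hc.exists_walk_length_eq_dist x a
  obtain ⟨pb, hb⟩ := hc.exists_walk_length_eq_dist x b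
  obtain ⟨pc, hcc⟩ := hc.exists_walk_length_eq_dist x c
  have tri : ∀ a b c : V, G.dist a c ≤ G.dist a b + G.dist b c := fun a b c => hc.dist_triangle
  have sym : ∀ a b : V, G.dist a b = G.dist b a := fun a b => dist_comm
  have t1 := tri x a b
  have t2 := tri x b a
  have t3 := tri x b c
  have t4 := tri x c b
  have c1 := sym a b
  have c2 := sym b c
  have t5 := tri a x b
  have t6 := tri b x c
  have c3 := sym a x
  have c4 := sym b x
  obtain ⟨t, ht1, ht2, ht3⟩ : ∃ t : ℕ, 2 * t + G.dist a b ≤ G.dist x a + G.dist x b ∧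
      2 * t + G.dist b c ≤ G.dist x b + G.dist x c ∧
      (G.dist x a + G.dist x b ≤ 2 * t + 1 + G.dist a b ∨
        G.dist x b + G.dist x c ≤ 2 * t + 1 + G.dist b c) := by
    rcases le_total (G.dist x a + G.dist x b - G.dist a b)
      (G.dist x b + G.dist x c - G.dist b c) with h1 | h1
    · exact ⟨(G.dist x a + G.dist x b - G.dist a b) / 2, by omega, by omega, by omega⟩
    · exact ⟨(G.dist x b + G.dist x c - G.dist b c) / 2, by omega, by omega, by omega⟩
  have f1 := fellow hc h pa pb ha hb ht1
  have f2 := fellow hc h pb pc hb hcc ht2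
  have hta : t ≤ pa.length := by omega
  have htc : t ≤ pc.length := by omega
  have e1 : G.dist (pa.getVert t) a = pa.length - t := by
    have := dist_getVert hc pa ha hta le_rfl
    rw [Walk.getVert_length] at this
    omega
  have e2 : G.dist (pc.getVert t) c = pc.length - t := by
    have := dist_getVert hc pc hcc htc le_rfl
    rw [Walk.getVert_length] at this
    omega
  have g1 := tri a (pa.getVert t) c
  have g2 := tri (pa.getVert t) (pb.getVert t) c
  have g3 := tri (pb.getVert t) (pc.getVert t) c
  have g4 := sym a (pa.getVert t)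
  omega

/-- the four point condition with an arbitrary base point -/
theorem four_m (hc : G.Connected) {x : V} {δ : ℕ} (h : ThinAt G x δ) (m a b c : V) :
    G.dist a c + G.dist m b ≤ G.dist a b + G.dist m c + 2 * (16 * δ + 9) ∨
    G.dist a c + G.dist m b ≤ G.dist b c + G.dist m a + 2 * (16 * δ + 9) := by
  have sym : ∀ a b : V, G.dist a b = G.dist b a := fun a b => dist_comm
  have h1 := four_x hc h a b c
  have h2 := four_x hc h a m c
  have h3 := four_x hc h m a b
  have h4 := four_x hc h m c b
  have c1 := sym a m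
  have c2 := sym c b
  have c3 := sym m c
  have c4 := sym a b
  omega

/-- the chain inequality -/
theorem chain (hc : G.Connected) {x : V} {δ : ℕ} (h : ThinAt G x δ) (m : V) (f : ℕ → V) {M : ℤ}
    (hf : ∀ j, M ≤ G.dist m (f j) + G.dist m (f (j + 1)) - G.dist (f j) (f (j + 1))) (k : ℕ) :
    ∀ i, M - k * (2 * (16 * δ + 9)) ≤
      G.dist m (f i) + G.dist m (f (i + 2 ^ k)) - G.dist (f i) (f (i + 2 ^ k)) := by
  induction k with
  | zero =>
    intro i
    have := hf i
    simpa using this
  | succ k ih =>
    intro i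
    have h1 := ih i
    have h2 := ih (i + 2 ^ k)
    have h3 := four_m hc h m (f i) (f (i + 2 ^ k)) (f (i + 2 ^ k + 2 ^ k))
    have h4 : i + 2 ^ (k + 1) = i + 2 ^ k + 2 ^ k := by ring
    rw [h4]
    have h5 : ((k + 1 : ℕ) : ℤ) * (2 * (16 * δ + 9)) = k * (2 * (16 * δ + 9)) +
      2 * (16 * δ + 9) := by push_cast; ring
    rw [h5]
    rcases h3 with h3 | h3
    · omega
    · omega

/-- geodesics stay near paths -/
theorem near (hc : G.Connected) {x : V} {δ : ℕ} (h : ThinAt G x δ) {a b : V} (γ : G.Walk a b)
    (hγ : γ.length = G.dist a b) (W : G.Walk a b) {k : ℕ} (hW : W.length ≤ 2 ^ k) {m : V}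
    (hm : m ∈ γ.support) : ∃ v ∈ W.support, G.dist m v ≤ k * (16 * δ + 9) := by
  by_contra hcon
  push Not at hcon
  rw [Walk.mem_support_iff_exists_getVert] at hm
  obtain ⟨s, hs, hsl⟩ := hm
  have e1 : G.dist a m = s := by
    have := dist_getVert hc γ hγ (Nat.zero_le _) hsl
    rw [Walk.getVert_zero, hs] at this
    omega
  have e2 : G.dist m b = γ.length - s := by
    have := dist_getVert hc γ hγ hsl le_rfl
    rw [Walk.getVert_length, hs] at this
    omega
  have hf := chain hc h m (fun j => W.getVert j) (M := 2 * ((k * (16 * δ + 9) : ℕ) + 1) - 1) (by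
    intro j
    have h1 := hcon (W.getVert j) (W.getVert_mem_support j)
    have h2 := hcon (W.getVert (j + 1)) (W.getVert_mem_support (j + 1))
    have h3 : G.dist (W.getVert j) (W.getVert (j + 1)) ≤ 1 := by
      rcases lt_or_ge j W.length with hj | hj
      · exact (SimpleGraph.dist_eq_one_iff_adj.mpr (W.adj_getVert_succ hj)).le
      · rw [W.getVert_of_length_le hj, W.getVert_of_length_le (by omega), dist_self]
        exact Nat.zero_le _
    omega) k 0
  simp only [Walk.getVert_zero, zero_add] at hf
  rw [W.getVert_of_length_le hW] at hf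
  have c1 : G.dist a m = G.dist m a := dist_comm
  have h5 : (k : ℤ) * (2 * (16 * δ + 9)) = 2 * ((k * (16 * δ + 9) : ℕ) : ℤ) := by
    push_cast; ring
  rw [h5] at hf
  omega

/-- A rectangle of walks with distant opposite sides is incompatible with thin triangles. -/
theorem not_thinAt (hc : G.Connected) {x : V} {δ k : ℕ} {p1 p2 p3 p4 : V}
    (T : G.Walk p1 p2) (R : G.Walk p2 p3) (L : G.Walk p1 p4) (B : G.Walk p4 p3)
    (h1 : T.length + R.length ≤ 2 ^ k) (h2 : L.length + B.length ≤ 2 ^ k)
    (hTB : ∀ v ∈ T.support, ∀ w ∈ B.support, 2 * (k * (16 * δ + 9)) + 1 < G.dist v w)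
    (hLR : ∀ v ∈ L.support, ∀ w ∈ R.support, 2 * (k * (16 * δ + 9)) + 1 < G.dist v w) :
    ¬ ThinAt G x δ := by
  intro h
  obtain ⟨γ, hγ⟩ := hc.exists_walk_length_eq_dist p1 p3
  set D := k * (16 * δ + 9) with hD
  have tri : ∀ a b c : V, G.dist a c ≤ G.dist a b + G.dist b c := fun a b c => hc.dist_triangle
  have sym : ∀ a b : V, G.dist a b = G.dist b a := fun a b => dist_comm
  have n1 : ∀ m ∈ γ.support, (∃ v ∈ T.support, G.dist m v ≤ D) ∨
      (∃ v ∈ R.support, G.dist m v ≤ D) := by
    intro m hm
    obtain ⟨v, hv, hd⟩ := near hc h γ hγ (T.append R) (by rw [Walk.length_append]; exact h1) hm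
    rw [Walk.mem_support_append_iff] at hv
    rcases hv with hv | hv
    · exact Or.inl ⟨v, hv, hd⟩
    · exact Or.inr ⟨v, hv, hd⟩
  have n2 : ∀ m ∈ γ.support, (∃ v ∈ L.support, G.dist m v ≤ D) ∨
      (∃ v ∈ B.support, G.dist m v ≤ D) := by
    intro m hm
    obtain ⟨v, hv, hd⟩ := near hc h γ hγ (L.append B) (by rw [Walk.length_append]; exact h2) hm
    rw [Walk.mem_support_append_iff] at hv
    rcases hv with hv | hv
    · exact Or.inl ⟨v, hv, hd⟩
    · exact Or.inr ⟨v, hv, hd⟩
  have noTB : ∀ m m' : V, G.dist m m' ≤ 1 → (∃ v ∈ T.support, G.dist m v ≤ D) →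
      ¬ (∃ v ∈ B.support, G.dist m' v ≤ D) := by
    rintro m m' hmm ⟨v, hv, hd⟩ ⟨w, hw, hd'⟩
    have := hTB v hv w hw
    have t1 := tri v m w
    have t2 := tri m m' w
    have c1 := sym v m
    omega
  have noLR : ∀ m : V, (∃ v ∈ L.support, G.dist m v ≤ D) →
      ¬ (∃ v ∈ R.support, G.dist m v ≤ D) := by
    rintro m ⟨v, hv, hd⟩ ⟨w, hw, hd'⟩
    have := hLR v hv w hw
    have t1 := tri v m w
    have c1 := sym v m
    omega
  obtain ⟨i, hi, hP, hP'⟩ := exists_switch (n := γ.length)
    (P := fun i => (∃ v ∈ T.support, G.dist (γ.getVert i) v ≤ D) ∧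
      (∃ v ∈ L.support, G.dist (γ.getVert i) v ≤ D))
    (P' := fun i => (∃ v ∈ R.support, G.dist (γ.getVert i) v ≤ D) ∧
      (∃ v ∈ B.support, G.dist (γ.getVert i) v ≤ D)) (by
      rw [Walk.getVert_zero]
      exact ⟨⟨p1, T.start_mem_support, by rw [dist_self]; exact Nat.zero_le _⟩,
        ⟨p1, L.start_mem_support, by rw [dist_self]; exact Nat.zero_le _⟩⟩) (by
      intro i _
      have hm := γ.getVert_mem_support i
      rcases n1 _ hm with h3 | h3
      · rcases n2 _ hm with h4 | h4
        · exact Or.inl ⟨h3, h4⟩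
        · exact absurd h4 (noTB _ _ (by rw [dist_self]; exact Nat.zero_le _) h3)
      · rcases n2 _ hm with h4 | h4
        · exact absurd h3 (noLR _ h4)
        · exact Or.inr ⟨h3, h4⟩) (by
      rw [Walk.getVert_length]
      exact ⟨⟨p3, R.end_mem_support, by rw [dist_self]; exact Nat.zero_le _⟩,
        ⟨p3, B.end_mem_support, by rw [dist_self]; exact Nat.zero_le _⟩⟩)
  rcases hP' with hP' | ⟨hi1, hP'⟩
  · exact noTB _ _ (by rw [dist_self]; exact Nat.zero_le _) hP.1 hP'.2
  · refine noTB _ _ ?_ hP.1 hP'.2
    exact (SimpleGraph.dist_eq_one_iff_adj.mpr (γ.adj_getVert_succ (by omega))).le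

end Pool.Agent.R968
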