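import Mathlib

/-!
# The stochastic hyperbolic infinite quadrangulation: definitions and deterministic part
-/

set_option autoImplicit false

open scoped ENNReal

namespace Pool.Agent.R968

/-! ### The plane ternary tree, its corners and the clockwise contour -/

/-- The vertices of the full ternary tree are the finite words in three letters; the root is the
empty word and the children of `u` are `0 :: u`, `1 :: u`, `2 :: u`, in clockwise order after the
edge to the parent. -/
abbrev Tri := List (Fin 3)

/-- The corners of the plane ternary tree: for a vertex `u` the sector `fst u` in front of the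
first child (between the parent and the first child, and for the root between the third and the
first child), the sectors `mid 0 u` and `mid 1 u` between the first and the second and between the
second and the third child, and for the vertex `i :: p`, which is not the root, the sector `lst i p`
between the third child and the parent. -/
inductive Corner
  | fst (u : Tri)
  | mid (j : Fin 2) (u : Tri)
  | lst (i : Fin 3) (p : Tri)

namespace Corner

/-- the vertex of a corner -/
def vert : Corner → Tri
  | fst u => u
  | mid _ u => u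
  | lst i p => i :: p

/-- the next corner in the clockwise contour -/
def next : Corner → Corner
  | fst u => fst (0 :: u)
  | mid 0 u => fst (1 :: u)
  | mid 1 u => fst (2 :: u)
  | lst 0 p => mid 0 p
  | lst 1 p => mid 1 p
  | lst 2 [] => fst []
  | lst 2 (j :: q) => lst j q

/-- the previous corner in the clockwise contour -/
def prev : Corner → Corner
  | fst [] => lst 2 []
  | fst (0 :: u) => fst u
  | fst (1 :: u) => mid 0 u
  | fst (2 :: u) => mid 1 u
  | mid 0 u => lst 0 u
  | mid 1 u => lst 1 u
  | lst j q => lst 2 (j :: q)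

end Corner

open Corner

/-- the label of a vertex: the sum of the increments on the path to the root -/
def lab (d : Tri → ℤ) : Tri → ℤ
  | [] => 0
  | i :: u => lab d u + d (i :: u)

/-- `c'` is the first corner after `c` in the contour whose label is the label of `c` minus one -/
def IsSucc (d : Tri → ℤ) (c c' : Corner) : Prop :=
  ∃ k : ℕ, 1 ≤ k ∧ next^[k] c = c' ∧ lab d c'.vert = lab d c.vert - 1 ∧
    ∀ j : ℕ, 1 ≤ j → j < k → lab d (next^[j] c).vert ≠ lab d c.vert - 1

open Classical in
/-- the successor of a corner (and the corner itself if there is none) -/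
noncomputable def succ (d : Tri → ℤ) (c : Corner) : Corner :=
  if h : ∃ c', IsSucc d c c' then h.choose else c

/-! ### Multigraphs and anchored expansion -/

/-- A graph with vertices `V` and edges `E`, multiple edges allowed; the edge `e` joins `a e` and
`b e`. -/
structure MGraph (V E : Type) where
  a : E → V
  b : E → V

namespace MGraph

variable {V E : Type} (G : MGraph V E)

/-- the degree of a vertex (a loop counts twice) -/
noncomputable def deg (v : V) : ℕ∞ := {e | G.a e = v}.encard + {e | G.b e = v}.encard

/-- the sum of the degrees of the vertices in `S` -/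
noncomputable def degSum (S : Finset V) : ℕ∞ := ∑ v ∈ S, G.deg v

/-- the edges with exactly one endpoint in `S` -/
def boundary (S : Finset V) : Set E :=
  {e | (G.a e ∈ S ∧ G.b e ∉ S) ∨ (G.a e ∉ S ∧ G.b e ∈ S)}

/-- the underlying simple graph -/
def toSimple : SimpleGraph V :=
  SimpleGraph.fromRel fun v w => ∃ e, G.a e = v ∧ G.b e = w

/-- The infimum of `|∂_E S| / |S|_deg` over all finite connected vertex sets `S` that contain `o`
and satisfy `n ≤ |S|_deg < ∞`. -/
noncomputable def isoInf (o : V) (n : ℕ) : ℝ≥0∞ :=
  ⨅ (S : Finset V) (_ : o ∈ S) (_ : (G.toSimple.induce (S : Set V)).Connected)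
    (_ : (n : ℕ∞) ≤ G.degSum S) (_ : G.degSum S < ⊤),
    ((G.boundary S).encard : ℝ≥0∞) / (G.degSum S : ℝ≥0∞)

/-- The anchored expansion constant: the limit as `n` tends to infinity of the infima `isoInf o n`,
which are nondecreasing in `n`, so that the limit is the supremum. -/
noncomputable def anchored (o : V) : ℝ≥0∞ := ⨆ n : ℕ, G.isoInf o n

end MGraph

/-- The quadrangulation: the vertices are those of the ternary tree and every corner `c` carries one
edge, which joins the vertex of `c` to the vertex of the successor of `c`. -/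
noncomputable def shiq (d : Tri → ℤ) : MGraph Tri Corner where
  a c := c.vert
  b c := (succ d c).vert

/-! ### Combinatorics of the contour -/

theorem prev_next (c : Corner) : prev (next c) = c := by
  match c with
  | fst u => rfl
  | mid 0 u => rfl
  | mid 1 u => rfl
  | lst 0 p => rfl
  | lst 1 p => rfl
  | lst 2 [] => rfl
  | lst 2 (j :: q) => rfl

theorem next_prev (c : Corner) : next (prev c) = c := by
  match c with
  | fst [] => rfl
  | fst (0 :: u) => rfl
  | fst (1 :: u) => rfl
  | fst (2 :: u) => rfl
  | mid 0 u => rfl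
  | mid 1 u => rfl
  | lst j q => rfl

/-- the infinite face of the tree that contains a corner: it is given by its top corner -/
def face : Corner → Option (Tri × Fin 2)
  | fst [] => none
  | fst (0 :: p) => face (fst p)
  | fst (1 :: p) => some (p, 0)
  | fst (2 :: p) => some (p, 1)
  | mid j u => some (u, j)
  | lst 0 p => some (p, 0)
  | lst 1 p => some (p, 1)
  | lst 2 [] => none
  | lst 2 (j :: q) => face (lst j q)

theorem face_next (c : Corner) : face (next c) = face c := by
  match c with
  | fst u => rw [next, face]
  | mid 0 u => rw [next, face, face]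
  | mid 1 u => rw [next, face, face]
  | lst 0 p => rw [next, face, face]
  | lst 1 p => rw [next, face, face]
  | lst 2 [] => rw [next, face, face]
  | lst 2 (j :: q) => rw [next, face]

theorem face_iterate (c : Corner) (k : ℕ) : face (next^[k] c) = face c := by
  induction k with
  | zero => rfl
  | succ k ih => rw [Function.iterate_succ_apply', face_next, ih]

variable {d : Tri → ℤ}

/-- the increments are in `{-1, 0, 1}` -/
def Small (d : Tri → ℤ) : Prop := ∀ v, -1 ≤ d v ∧ d v ≤ 1

theorem lab_next (hd : Small d) (c : Corner) :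
    lab d c.vert - 1 ≤ lab d (next c).vert ∧ lab d (next c).vert ≤ lab d c.vert + 1 := by
  match c with
  | fst u =>
    have := hd (0 :: u)
    simp only [next, vert, lab]
    omega
  | mid 0 u =>
    have := hd (1 :: u)
    simp only [next, vert, lab]
    omega
  | mid 1 u =>
    have := hd (2 :: u)
    simp only [next, vert, lab]
    omega
  | lst 0 p =>
    have := hd (0 :: p)
    simp only [next, vert, lab]
    omega
  | lst 1 p =>
    have := hd (1 :: p)
    simp only [next, vert, lab]
    omega
  | lst 2 [] =>
    have := hd [2]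
    simp only [next, vert, lab]
    omega
  | lst 2 (j :: q) =>
    have := hd (2 :: j :: q)
    simp only [next, vert, lab]
    omega

/-- discrete intermediate value property -/
theorem ivt_down (f : ℕ → ℤ) (hf : ∀ k, f k - 1 ≤ f (k + 1)) {m : ℤ} {a b : ℕ} (hab : a ≤ b)
    (ha : m ≤ f a) (hb : f b ≤ m) : ∃ k, a ≤ k ∧ k ≤ b ∧ f k = m := by
  induction b with
  | zero =>
    obtain rfl : a = 0 := by omega
    exact ⟨0, le_rfl, le_rfl, le_antisymm hb ha⟩
  | succ b ih =>
    rcases Nat.lt_or_ge b a with h | h
    · obtain rfl : a = b + 1 := by omega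
      exact ⟨b + 1, le_rfl, le_rfl, le_antisymm hb ha⟩
    · by_cases h1 : f b ≤ m
      · obtain ⟨k, hk1, hk2, hk3⟩ := ih h h1
        exact ⟨k, hk1, by omega, hk3⟩
      · have := hf b
        exact ⟨b + 1, by omega, le_rfl, by omega⟩

theorem iterate_fst (u : Tri) (k : ℕ) : next^[k] (fst u) = fst (List.replicate k 0 ++ u) := by
  induction k with
  | zero => rfl
  | succ k ih => rw [Function.iterate_succ_apply', ih, next]; rfl

theorem iterate_lst (i : Fin 3) (p : Tri) (k : ℕ) :
    (prev^[k] (lst i p)).vert = List.replicate k 2 ++ (i :: p) ∧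
      ∃ j q, prev^[k] (lst i p) = lst j q := by
  induction k with
  | zero => exact ⟨rfl, i, p, rfl⟩
  | succ k ih =>
    obtain ⟨h1, j, q, h2⟩ := ih
    rw [Function.iterate_succ_apply', h2]
    refine ⟨?_, 2, j :: q, rfl⟩
    rw [h2] at h1
    have h1' : j :: q = List.replicate k 2 ++ (i :: p) := h1
    show 2 :: (j :: q) = _
    rw [h1']
    rfl

/-- the labels along the extreme rays are unbounded below -/
def Rays (d : Tri → ℤ) : Prop :=
  ∀ (u : Tri) (M : ℤ), (∃ k, lab d (List.replicate k 0 ++ u) < M) ∧
    (∃ k, lab d (List.replicate k 2 ++ u) < M)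

theorem unbdd_of_next {c : Corner} (h : ∀ M : ℤ, ∃ k, lab d (next^[k] (next c)).vert < M) :
    ∀ M : ℤ, ∃ k, lab d (next^[k] c).vert < M := by
  intro M
  obtain ⟨k, hk⟩ := h M
  exact ⟨k + 1, by rwa [Function.iterate_succ_apply]⟩

theorem unbdd_next (hr : Rays d) : ∀ (c : Corner) (M : ℤ), ∃ k, lab d (next^[k] c).vert < M := by
  have h1 : ∀ (u : Tri) (M : ℤ), ∃ k, lab d (next^[k] (fst u)).vert < M := by
    intro u M
    obtain ⟨k, hk⟩ := (hr u M).1
    exact ⟨k, by rw [iterate_fst]; exact hk⟩
  have h2 : ∀ (j : Fin 2) (u : Tri) (M : ℤ), ∃ k, lab d (next^[k] (mid j u)).vert < M := by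
    intro j u
    apply unbdd_of_next
    match j with
    | 0 => exact h1 _
    | 1 => exact h1 _
  have h3 : ∀ (p : Tri) (i : Fin 3) (M : ℤ), ∃ k, lab d (next^[k] (lst i p)).vert < M := by
    intro p
    induction p with
    | nil =>
      intro i
      apply unbdd_of_next
      match i with
      | 0 => exact h2 _ _
      | 1 => exact h2 _ _
      | 2 => exact h1 _
    | cons j q ih =>
      intro i
      apply unbdd_of_next
      match i with
      | 0 => exact h2 _ _
      | 1 => exact h2 _ _
      | 2 => exact ih _
  intro c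
  match c with
  | fst u => exact h1 u
  | mid j u => exact h2 j u
  | lst i p => exact h3 p i

theorem unbdd_of_prev {c : Corner} (h : ∀ M : ℤ, ∃ k, lab d (prev^[k] (prev c)).vert < M) :
    ∀ M : ℤ, ∃ k, lab d (prev^[k] c).vert < M := by
  intro M
  obtain ⟨k, hk⟩ := h M
  exact ⟨k + 1, by rwa [Function.iterate_succ_apply]⟩

theorem unbdd_prev (hr : Rays d) : ∀ (c : Corner) (M : ℤ), ∃ k, lab d (prev^[k] c).vert < M := by
  have h1 : ∀ (i : Fin 3) (p : Tri) (M : ℤ), ∃ k, lab d (prev^[k] (lst i p)).vert < M := by
    intro i p M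
    obtain ⟨k, hk⟩ := (hr (i :: p) M).2
    exact ⟨k, by rw [(iterate_lst i p k).1]; exact hk⟩
  have h2 : ∀ (j : Fin 2) (u : Tri) (M : ℤ), ∃ k, lab d (prev^[k] (mid j u)).vert < M := by
    intro j u
    apply unbdd_of_prev
    match j with
    | 0 => exact h1 _ _
    | 1 => exact h1 _ _
  have h3 : ∀ (p : Tri) (M : ℤ), ∃ k, lab d (prev^[k] (fst p)).vert < M := by
    intro p
    induction p with
    | nil =>
      apply unbdd_of_prev
      exact h1 _ _
    | cons j q ih =>
      apply unbdd_of_prev
      match j with
      | 0 => exact ih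
      | 1 => exact h2 _ _
      | 2 => exact h2 _ _
  intro c
  match c with
  | fst u => exact h3 u
  | mid j u => exact h2 j u
  | lst i p => exact h1 i p

theorem lab_iterate (hd : Small d) (c : Corner) (k : ℕ) :
    lab d (next^[k] c).vert - 1 ≤ lab d (next^[k + 1] c).vert := by
  rw [Function.iterate_succ_apply']
  exact (lab_next hd _).1

/-- every corner has a successor -/
theorem exists_succ (hd : Small d) (hr : Rays d) (c : Corner) : ∃ c', IsSucc d c c' := by
  classical
  have hex : ∃ k : ℕ, 1 ≤ k ∧ lab d (next^[k] c).vert = lab d c.vert - 1 := by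
    obtain ⟨k, hk⟩ := unbdd_next hr c (lab d c.vert)
    obtain ⟨j, _, _, hj⟩ := ivt_down (fun k => lab d (next^[k] c).vert) (lab_iterate hd c)
      (m := lab d c.vert - 1) (Nat.zero_le k) (by
        show lab d c.vert - 1 ≤ lab d c.vert
        omega) (by
        show lab d (next^[k] c).vert ≤ lab d c.vert - 1
        omega)
    refine ⟨j, ?_, hj⟩
    rcases Nat.eq_zero_or_pos j with h | h
    · subst h
      have : lab d c.vert = lab d c.vert - 1 := hj
      omega
    · exact h
  have hspec := Nat.find_spec hex
  exact ⟨next^[Nat.find hex] c, Nat.find hex, hspec.1, rfl, hspec.2, fun j hj1 hj2 h =>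
    Nat.find_min hex hj2 ⟨hj1, h⟩⟩

theorem isSucc_unique {c c' c'' : Corner} (h1 : IsSucc d c c') (h2 : IsSucc d c c'') :
    c' = c'' := by
  obtain ⟨k, hk1, hk2, hk3, hk4⟩ := h1
  obtain ⟨m, hm1, hm2, hm3, hm4⟩ := h2
  rcases lt_trichotomy k m with h | h | h
  · exact absurd (by rw [hk2]; exact hk3) (hm4 k hk1 h)
  · rw [← hk2, ← hm2, h]
  · exact absurd (by rw [hm2]; exact hm3) (hk4 m hm1 h)

theorem isSucc_succ (hd : Small d) (hr : Rays d) (c : Corner) : IsSucc d c (succ d c) := by
  have h := exists_succ hd hr c
  rw [succ, dif_pos h]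
  exact h.choose_spec

theorem succ_eq (hd : Small d) (hr : Rays d) {c c' : Corner} (h : IsSucc d c c') :
    succ d c = c' := isSucc_unique (isSucc_succ hd hr c) h

theorem lab_succ (hd : Small d) (hr : Rays d) (c : Corner) :
    lab d (succ d c).vert = lab d c.vert - 1 := by
  obtain ⟨_, _, _, h, _⟩ := isSucc_succ hd hr c
  exact h

theorem face_succ (hd : Small d) (hr : Rays d) (c : Corner) : face (succ d c) = face c := by
  obtain ⟨k, _, h, _, _⟩ := isSucc_succ hd hr c
  rw [← h, face_iterate]

/-! ### Expansion -/

/-- the chain of successors that starts in a face leaves every finite set of vertices, so that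
every face which meets `S` contains a boundary edge of `S` -/
theorem exists_boundary (hd : Small d) (hr : Rays d) (S : Finset Tri) (c : Corner)
    (hc : c.vert ∈ S) : ∃ e, face e = face c ∧ e.vert ∈ S ∧ (succ d e).vert ∉ S := by
  by_contra hcon
  push Not at hcon
  have h1 : ∀ n, face ((succ d)^[n] c) = face c ∧ ((succ d)^[n] c).vert ∈ S ∧
      lab d ((succ d)^[n] c).vert = lab d c.vert - n := by
    intro n
    induction n with
    | zero => exact ⟨rfl, hc, by simp⟩
    | succ n ih =>
      rw [Function.iterate_succ_apply']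
      refine ⟨by rw [face_succ hd hr, ih.1], hcon _ ih.1 ih.2.1, ?_⟩
      rw [lab_succ hd hr, ih.2.2]
      push_cast
      ring
  have hinj : Function.Injective fun n => ((succ d)^[n] c).vert := by
    intro m n hmn
    have e1 := (h1 m).2.2
    have e2 := (h1 n).2.2
    have hmn' : ((succ d)^[m] c).vert = ((succ d)^[n] c).vert := hmn
    rw [hmn'] at e1
    omega
  exact Set.infinite_of_injective_forall_mem hinj (fun n => (h1 n).2.1) S.finite_toSet

theorem two_mul_card_le (hd : Small d) (hr : Rays d) (S : Finset Tri) :
    ((2 * S.card : ℕ) : ℕ∞) ≤ ((shiq d).boundary S).encard := by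
  classical
  have h : ∀ x : {x : Tri × Fin 2 // x.1 ∈ S}, ∃ e, face e = some x.1 ∧ e.vert ∈ S ∧
      (succ d e).vert ∉ S := by
    rintro ⟨⟨u, j⟩, hu⟩
    obtain ⟨e, h1, h2, h3⟩ := exists_boundary hd hr S (mid j u) hu
    exact ⟨e, by rw [h1, face], h2, h3⟩
  choose f hf using h
  have hinj : Function.Injective f := by
    intro x y hxy
    have h1 := (hf x).1
    rw [hxy, (hf y).1, Option.some_inj] at h1
    exact Subtype.ext h1.symm
  have hsub : Set.range f ⊆ (shiq d).boundary S := by
    rintro _ ⟨x, rfl⟩
    exact Or.inl ⟨(hf x).2.1, (hf x).2.2⟩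
  refine le_trans (le_of_eq ?_) (Set.encard_le_encard hsub)
  rw [← Set.image_univ, hinj.encard_image, Set.encard_univ]
  have e : {x : Tri × Fin 2 // x.1 ∈ S} ≃ S × Fin 2 :=
    { toFun := fun x => (⟨x.1.1, x.2⟩, x.1.2)
      invFun := fun x => ⟨(x.1.1, x.2), x.1.2⟩
      left_inv := fun x => rfl
      right_inv := fun x => rfl }
  rw [ENat.card_congr e, ENat.card_eq_coe_fintype_card]
  simp [mul_comm]

/-- the corners of the vertices in `S` -/
theorem encard_out_le (S : Finset Tri) :
    {c : Corner | c.vert ∈ S}.encard ≤ ((4 * S.card : ℕ) : ℕ∞) := by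
  classical
  have hsub : {c : Corner | c.vert ∈ S} ⊆
      (S.image fst ∪ S.image (mid 0) ∪ S.image (mid 1) ∪
        S.image (fun v => lst (v.headD 0) v.tail) : Finset Corner) := by
    intro c hc
    have hc' : c.vert ∈ S := hc
    simp only [Finset.coe_union, Finset.coe_image, Set.mem_union, Set.mem_image, Finset.mem_coe]
    match c, hc' with
    | fst u, h => exact Or.inl (Or.inl (Or.inl ⟨u, h, rfl⟩))
    | mid 0 u, h => exact Or.inl (Or.inl (Or.inr ⟨u, h, rfl⟩))
    | mid 1 u, h => exact Or.inl (Or.inr ⟨u, h, rfl⟩)
    | lst i p, h => exact Or.inr ⟨i :: p, h, rfl⟩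
  refine (Set.encard_le_encard hsub).trans ?_
  rw [Set.encard_coe_eq_coe_finsetCard]
  have h1 := Finset.card_union_le (S.image fst ∪ S.image (mid 0) ∪ S.image (mid 1))
    (S.image (fun v => lst (v.headD 0) v.tail))
  have h2 := Finset.card_union_le (S.image fst ∪ S.image (mid 0)) (S.image (mid 1))
  have h3 := Finset.card_union_le (S.image fst) (S.image (mid 0))
  have h4 := Finset.card_image_le (s := S) (f := fst)
  have h5 := Finset.card_image_le (s := S) (f := mid 0)
  have h6 := Finset.card_image_le (s := S) (f := mid 1)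
  have h7 := Finset.card_image_le (s := S) (f := fun v => lst (v.headD 0) v.tail)
  have h8 : (S.image fst ∪ S.image (mid 0) ∪ S.image (mid 1) ∪
        S.image (fun v => lst (v.headD 0) v.tail)).card ≤ 4 * S.card := by omega
  exact_mod_cast h8

theorem sum_encard_fiber {E V : Type} (g : E → V) (S : Finset V) :
    ∑ v ∈ S, {e | g e = v}.encard = {e | g e ∈ S}.encard := by
  classical
  induction S using Finset.induction_on with
  | empty => simp
  | insert v S hv ih =>
    rw [Finset.sum_insert hv, ih, ← Set.encard_union_eq]
    · congr 1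
      ext e
      simp
    · rw [Set.disjoint_left]
      intro e he he'
      have h1 : g e = v := he
      have h2 : g e ∈ S := he'
      rw [h1] at h2
      exact hv h2

/-- the expansion inequality for all finite sets -/
theorem degSum_le (hd : Small d) (hr : Rays d) (S : Finset Tri) :
    (shiq d).degSum S ≤ 5 * ((shiq d).boundary S).encard := by
  have h1 : (shiq d).degSum S = {e | (shiq d).a e ∈ S}.encard + {e | (shiq d).b e ∈ S}.encard := by
    rw [← sum_encard_fiber, ← sum_encard_fiber, ← Finset.sum_add_distrib]
    rfl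
  set O : Set Corner := {e | (shiq d).a e ∈ S} with hO
  set I : Set Corner := {e | (shiq d).b e ∈ S} with hI
  have hO4 : O.encard ≤ ((4 * S.card : ℕ) : ℕ∞) := encard_out_le S
  have hb : (shiq d).boundary S = (O \ I) ∪ (I \ O) := by
    ext e
    constructor
    · rintro (⟨h1, h2⟩ | ⟨h1, h2⟩)
      · exact Or.inl ⟨h1, h2⟩
      · exact Or.inr ⟨h2, h1⟩
    · rintro (⟨h1, h2⟩ | ⟨h1, h2⟩)
      · exact Or.inl ⟨h1, h2⟩
      · exact Or.inr ⟨h2, h1⟩
  have hI' : I.encard ≤ O.encard + ((shiq d).boundary S).encard := by
    have hsub : I ⊆ O ∪ (shiq d).boundary S := by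
      intro e he
      by_cases h : e ∈ O
      · exact Or.inl h
      · exact Or.inr (hb ▸ Or.inr ⟨he, h⟩)
    exact (Set.encard_le_encard hsub).trans (Set.encard_union_le _ _)
  have h2 := two_mul_card_le hd hr S
  rw [h1]
  calc O.encard + I.encard ≤ O.encard + (O.encard + ((shiq d).boundary S).encard) := by gcongr
    _ ≤ ((4 * S.card : ℕ) : ℕ∞) + (((4 * S.card : ℕ) : ℕ∞) + ((shiq d).boundary S).encard) := by
        gcongr
    _ = 4 * ((2 * S.card : ℕ) : ℕ∞) + ((shiq d).boundary S).encard := by
        push_cast
        ring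
    _ ≤ 4 * ((shiq d).boundary S).encard + ((shiq d).boundary S).encard := by gcongr
    _ = 5 * ((shiq d).boundary S).encard := by ring

end Pool.Agent.R968
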