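import Pool.Agent.R968.Shiq

/-!
# The stochastic hyperbolic infinite quadrangulation: local finiteness and connectivity
-/

set_option autoImplicit false

open scoped ENNReal

namespace Pool.Agent.R968

open Corner

variable {d : Tri → ℤ}

/-- before the successor the labels are at least the label of the corner -/
theorem le_lab_of_lt (hd : Small d) {c : Corner} {k : ℕ}
    (h : ∀ j : ℕ, 1 ≤ j → j < k → lab d (next^[j] c).vert ≠ lab d c.vert - 1) {j : ℕ}
    (hj : j < k) : lab d c.vert ≤ lab d (next^[j] c).vert := by
  by_contra hcon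
  push Not at hcon
  obtain ⟨i, _, hi, hi'⟩ := ivt_down (fun k => lab d (next^[k] c).vert) (lab_iterate hd c)
    (m := lab d c.vert - 1) (Nat.zero_le j) (by
      show lab d c.vert - 1 ≤ lab d c.vert
      omega) (by
      show lab d (next^[j] c).vert ≤ lab d c.vert - 1
      omega)
  rcases Nat.eq_zero_or_pos i with h0 | h0
  · subst h0
    have : lab d c.vert = lab d c.vert - 1 := hi'
    omega
  · exact h i h0 (by omega) hi'

theorem adj_succ (hd : Small d) (hr : Rays d) (c : Corner) :
    (shiq d).toSimple.Adj c.vert (succ d c).vert := by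
  rw [MGraph.toSimple, SimpleGraph.fromRel_adj]
  refine ⟨fun h => ?_, Or.inl ⟨c, rfl, rfl⟩⟩
  have := lab_succ hd hr c
  rw [← h] at this
  omega

theorem reach_next (hd : Small d) (hr : Rays d) (c : Corner) :
    (shiq d).toSimple.Reachable c.vert (next c).vert := by
  have hs : ∀ c, (shiq d).toSimple.Reachable c.vert (succ d c).vert := fun c =>
    (adj_succ hd hr c).reachable
  have hl := lab_next hd c
  have h1 : lab d (next c).vert = lab d c.vert - 1 ∨ lab d (next c).vert = lab d c.vert ∨
      lab d (next c).vert = lab d c.vert + 1 := by omega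
  rcases h1 with h1 | h1 | h1
  · have : IsSucc d c (next c) := ⟨1, le_rfl, rfl, h1, fun j h2 h3 => by omega⟩
    rw [← succ_eq hd hr this]
    exact hs c
  · obtain ⟨k, hk1, hk2, hk3, hk4⟩ := isSucc_succ hd hr (next c)
    have : IsSucc d c (succ d (next c)) := by
      refine ⟨k + 1, by omega, by rw [Function.iterate_succ_apply]; exact hk2, by omega, ?_⟩
      intro j hj1 hj2
      obtain ⟨i, rfl⟩ : ∃ i, j = i + 1 := ⟨j - 1, by omega⟩
      rw [Function.iterate_succ_apply]
      rcases Nat.eq_zero_or_pos i with h0 | h0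
      · subst h0
        show lab d (next c).vert ≠ _
        omega
      · have := hk4 i h0 (by omega)
        omega
    have h2 := hs c
    rw [succ_eq hd hr this] at h2
    exact h2.trans (hs (next c)).symm
  · obtain ⟨k, hk1, hk2, hk3, hk4⟩ := isSucc_succ hd hr (next c)
    obtain ⟨m, hm1, hm2, hm3, hm4⟩ := isSucc_succ hd hr (succ d (next c))
    have : IsSucc d c (succ d (succ d (next c))) := by
      refine ⟨m + k + 1, by omega, ?_, by omega, ?_⟩
      · rw [Function.iterate_succ_apply, Function.iterate_add_apply, hk2, hm2]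
      intro j hj1 hj2
      obtain ⟨i, rfl⟩ : ∃ i, j = i + 1 := ⟨j - 1, by omega⟩
      rw [Function.iterate_succ_apply]
      rcases Nat.lt_or_ge i k with h0 | h0
      · have := le_lab_of_lt hd hk4 h0
        omega
      · obtain ⟨l, rfl⟩ : ∃ l, i = l + k := ⟨i - k, by omega⟩
        rw [Function.iterate_add_apply, hk2]
        have := le_lab_of_lt hd hm4 (j := l) (by omega)
        omega
    have h2 := hs c
    rw [succ_eq hd hr this] at h2
    exact h2.trans ((hs (succ d (next c))).symm.trans (hs (next c)).symm)

theorem shiq_connected (hd : Small d) (hr : Rays d) : (shiq d).toSimple.Connected := by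
  have hroot : ∀ u : Tri, (shiq d).toSimple.Reachable [] u := by
    intro u
    induction u with
    | nil => exact SimpleGraph.Reachable.refl _
    | cons i p ih =>
      refine ih.trans ?_
      match i with
      | 0 => exact reach_next hd hr (fst p)
      | 1 => exact reach_next hd hr (mid 0 p)
      | 2 => exact reach_next hd hr (mid 1 p)
  exact ⟨fun u v => (hroot u).symm.trans (hroot v)⟩

theorem prev_iterate_next (c : Corner) (k : ℕ) : prev^[k] (next^[k] c) = c := by
  induction k with
  | zero => rfl
  | succ k ih =>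
    rw [Function.iterate_succ_apply, Function.iterate_succ_apply' next, prev_next, ih]

theorem prev_iterate_next' (c : Corner) {j k : ℕ} (h : j ≤ k) :
    prev^[j] (next^[k] c) = next^[k - j] c := by
  obtain ⟨m, rfl⟩ : ∃ m, k = j + m := ⟨k - j, by omega⟩
  rw [Function.iterate_add_apply, prev_iterate_next]
  congr 2
  omega

/-- finitely many corners have a given successor -/
theorem finite_preimage (hd : Small d) (hr : Rays d) (c' : Corner) :
    {c | succ d c = c'}.Finite := by
  obtain ⟨K, hK⟩ := unbdd_prev hr c' (lab d c'.vert)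
  refine (Set.finite_range (fun k : Fin (K + 1) => prev^[k] c')).subset ?_
  intro c hc
  have hc' : succ d c = c' := hc
  obtain ⟨k, hk1, hk2, hk3, hk4⟩ := isSucc_succ hd hr c
  rw [hc'] at hk2 hk3
  have hck : prev^[k] c' = c := by rw [← hk2, prev_iterate_next]
  refine ⟨⟨k, ?_⟩, hck⟩
  by_contra hcon
  push Not at hcon
  have h2 := le_lab_of_lt hd hk4 (j := k - K) (by
    rcases Nat.eq_zero_or_pos K with h | h
    · subst h
      exact absurd hK (lt_irrefl _)
    · omega)
  rw [← prev_iterate_next' c (show K ≤ k by omega), hk2] at h2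
  omega

theorem shiq_deg (hd : Small d) (hr : Rays d) (v : Tri) : (shiq d).deg v < ⊤ := by
  have hout : ({e : Corner | e.vert = v}).Finite := by
    have h1 := encard_out_le {v}
    have h2 : {c : Corner | c.vert ∈ ({v} : Finset Tri)} = {e : Corner | e.vert = v} := by
      ext c
      simp
    rw [h2] at h1
    exact Set.finite_of_encard_le_coe h1
  have hin : ({e : Corner | (succ d e).vert = v}).Finite := by
    have h3 : {e : Corner | (succ d e).vert = v} = ⋃ c' ∈ {e : Corner | e.vert = v},
        {c | succ d c = c'} := by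
      ext e
      simp
    rw [h3]
    exact hout.biUnion fun c' _ => finite_preimage hd hr c'
  exact ENat.add_lt_top.mpr ⟨hout.encard_lt_top, hin.encard_lt_top⟩

theorem le_anchored (hd : Small d) (hr : Rays d) (o : Tri) (n : ℕ) :
    1 / 5 ≤ (shiq d).isoInf o n := by
  refine le_iInf fun S => le_iInf fun ho => le_iInf fun _ => le_iInf fun _ => le_iInf fun hlt => ?_
  have h1 := degSum_le hd hr S
  have h2 : (1 : ℕ∞) ≤ (shiq d).degSum S := by
    have h3 : (shiq d).deg o ≤ (shiq d).degSum S :=
      Finset.single_le_sum (f := fun v => (shiq d).deg v) (fun _ _ => zero_le) ho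
    refine le_trans ?_ h3
    refine le_trans ?_ le_self_add
    rw [Set.one_le_encard_iff_nonempty]
    exact ⟨fst o, rfl⟩
  set D := (shiq d).degSum S
  set B := ((shiq d).boundary S).encard
  have hD : D ≠ 0 := by
    intro h
    rw [h] at h2
    exact absurd h2 (by norm_num)
  have hD0 : (D : ℝ≥0∞) ≠ 0 := by
    intro h
    exact hD (by exact_mod_cast h)
  have hDt : (D : ℝ≥0∞) ≠ ⊤ := by
    intro h
    exact hlt.ne (by exact_mod_cast h)
  rw [ENNReal.le_div_iff_mul_le (Or.inl hD0) (Or.inl hDt)]
  have h4 : (D : ℝ≥0∞) ≤ 5 * (B : ℝ≥0∞) := by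
    have : ((D : ℕ∞) : ℝ≥0∞) ≤ ((5 * B : ℕ∞) : ℝ≥0∞) := by exact_mod_cast h1
    simpa using this
  calc 1 / 5 * (D : ℝ≥0∞) ≤ 1 / 5 * (5 * (B : ℝ≥0∞)) := by gcongr
    _ = B := by
      rw [← mul_assoc, one_div, ENNReal.inv_mul_cancel (by norm_num) (by norm_num), one_mul]

end Pool.Agent.R968
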