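import Pool.Agent.R968.ShiqConn

/-!
# The stochastic hyperbolic infinite quadrangulation: the random labels
-/

set_option autoImplicit false

open MeasureTheory ProbabilityTheory Filter
open scoped ENNReal Topology

namespace Pool.Agent.R968

/-- A random variable with values in the integers is uniform on `{-1, 0, 1}`. -/
def IsUnif {Ω : Type*} [MeasurableSpace Ω] (P : Measure Ω) (X : Ω → ℤ) : Prop :=
  Measurable X ∧ P {ω | X ω = -1} = 1 / 3 ∧ P {ω | X ω = 0} = 1 / 3 ∧ P {ω | X ω = 1} = 1 / 3

variable {Ω : Type*} [MeasurableSpace Ω] {P : Measure Ω} [IsProbabilityMeasure P]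

theorem IsUnif.ae_small {X : Ω → ℤ} (h : IsUnif P X) : ∀ᵐ ω ∂P, -1 ≤ X ω ∧ X ω ≤ 1 := by
  obtain ⟨hm, h1, h2, h3⟩ := h
  have m1 : MeasurableSet {ω | X ω = -1} := hm (measurableSet_singleton (-1))
  have m2 : MeasurableSet {ω | X ω = 0} := hm (measurableSet_singleton 0)
  have m3 : MeasurableSet {ω | X ω = 1} := hm (measurableSet_singleton 1)
  have hU : P ({ω | X ω = -1} ∪ ({ω | X ω = 0} ∪ {ω | X ω = 1})) = 1 := by
    rw [measure_union _ (m2.union m3), measure_union _ m3, h1, h2, h3]
    · rw [← ENNReal.add_div, ← ENNReal.add_div]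
      rw [show (1 : ℝ≥0∞) + (1 + 1) = 3 by norm_num]
      exact ENNReal.div_self (by norm_num) (by norm_num)
    · rw [Set.disjoint_left]
      intro ω h4 h5
      have h4' : X ω = 0 := h4
      have h5' : X ω = 1 := h5
      omega
    · rw [Set.disjoint_left]
      rintro ω h4 (h5 | h5)
      · have h4' : X ω = -1 := h4
        have h5' : X ω = 0 := h5
        omega
      · have h4' : X ω = -1 := h4
        have h5' : X ω = 1 := h5
        omega
  have := (prob_compl_eq_zero_iff (m1.union (m2.union m3))).mpr hU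
  rw [ae_iff]
  refine measure_mono_null ?_ this
  intro ω hω hmem
  apply hω
  rcases hmem with h4 | h4 | h4
  · have h4' : X ω = -1 := h4
    omega
  · have h4' : X ω = 0 := h4
    omega
  · have h4' : X ω = 1 := h4
    omega

/-- the mean of a uniform variable on `{-1, 0, 1}` is zero -/
theorem IsUnif.integral_eq {X : Ω → ℤ} (h : IsUnif P X) : ∫ ω, (X ω : ℝ) ∂P = 0 := by
  have hs := h.ae_small
  obtain ⟨hm, h1, h2, h3⟩ := h
  have m1 : MeasurableSet {ω | X ω = -1} := hm (measurableSet_singleton (-1))
  have m3 : MeasurableSet {ω | X ω = 1} := hm (measurableSet_singleton 1)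
  have e : (fun ω => (X ω : ℝ)) =ᵐ[P] fun ω => Set.indicator {ω | X ω = 1} (fun _ => (1 : ℝ)) ω -
      Set.indicator {ω | X ω = -1} (fun _ => (1 : ℝ)) ω := by
    filter_upwards [hs] with ω hω
    have h4 : X ω = -1 ∨ X ω = 0 ∨ X ω = 1 := by omega
    simp only [Set.indicator, Set.mem_ofPred_eq]
    rcases h4 with h4 | h4 | h4 <;> rw [h4] <;> norm_num
  rw [integral_congr_ae e, integral_sub, integral_indicator_const _ m3,
    integral_indicator_const _ m1]
  · simp [Measure.real, h1, h3]
  · exact (integrable_const (1 : ℝ)).indicator m3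
  · exact (integrable_const (1 : ℝ)).indicator m1

/-- the partial sums of independent uniform variables on `{-1, 0, 1}` are unbounded below -/
theorem ae_unbdd {ξ : ℕ → Ω → ℤ} (hind : iIndepFun ξ P) (hu : ∀ n, IsUnif P (ξ n)) :
    ∀ᵐ ω ∂P, ∀ M : ℤ, ∃ k, ∑ j ∈ Finset.range k, ξ j ω < M := by
  set f : ℕ → Ω → ℝ := fun n ω => -(ξ n ω : ℝ) with hf
  have hmeas : ∀ n, Measurable (f n) := fun n =>
    (measurable_of_countable (fun z : ℤ => -(z : ℝ))).comp (hu n).1
  have hsm : ∀ n, StronglyMeasurable (f n) := fun n => (hmeas n).stronglyMeasurable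
  have hfi : iIndepFun f P :=
    hind.comp (fun _ (z : ℤ) => -(z : ℝ)) fun _ => measurable_of_countable _
  have hbound : ∀ n, ∀ᵐ ω ∂P, |f n ω| ≤ 1 := by
    intro n
    filter_upwards [(hu n).ae_small] with ω hω
    rw [hf, abs_neg, abs_le]
    exact ⟨by exact_mod_cast hω.1, by exact_mod_cast hω.2⟩
  have hint : ∀ n, Integrable (f n) P := by
    intro n
    refine Integrable.of_bound (hmeas n).aestronglyMeasurable 1 ?_
    filter_upwards [hbound n] with ω hω
    rwa [Real.norm_eq_abs]
  have hmean : ∀ n, ∫ ω, f n ω ∂P = 0 := by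
    intro n
    rw [hf]
    simp only
    rw [integral_neg, (hu n).integral_eq, neg_zero]
  set 𝒢 := Filtration.natural f hsm with h𝒢
  set Y : ℕ → Ω → ℝ := fun n ω => ∑ j ∈ Finset.range (n + 1), f j ω with hY
  have hmart : Martingale Y 𝒢 P := by
    refine martingale_of_condExp_sub_eq_zero_nat ?_ ?_ ?_
    · intro n
      have : Y n = ∑ j ∈ Finset.range (n + 1), f j := by
        ext ω
        rw [hY, Finset.sum_apply]
      rw [this]
      refine Finset.stronglyMeasurable_sum _ fun j hj => ?_
      have h1 := Filtration.stronglyAdapted_natural hsm j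
      exact h1.mono (𝒢.mono (by rw [Finset.mem_range] at hj; omega))
    · intro n
      exact integrable_finsetSum _ fun j _ => hint j
    · intro n
      have h1 : Y (n + 1) - Y n = f (n + 1) := by
        ext ω
        rw [Pi.sub_apply, hY]
        simp only
        rw [Finset.sum_range_succ]
        ring
      rw [h1]
      have h2 := hfi.condExp_natural_ae_eq_of_lt hsm (Nat.lt_succ_self n)
      refine h2.trans ?_
      rw [hmean]
      rfl
  have hconv := hmart.submartingale.bddAbove_iff_exists_tendsto (R := 1) (by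
    rw [ae_all_iff]
    intro n
    filter_upwards [hbound (n + 1)] with ω hω
    have h1 : Y (n + 1) ω - Y n ω = f (n + 1) ω := by
      rw [hY]
      simp only
      rw [Finset.sum_range_succ]
      ring
    rw [h1]
    exact_mod_cast hω)
  -- infinitely many increments are equal to one
  have hio : ∀ᵐ ω ∂P, ∃ᶠ n in atTop, ξ n ω = 1 := by
    have hm : ∀ n, MeasurableSet {ω | ξ n ω = 1} := fun n =>
      (hu n).1 (measurableSet_singleton 1)
    have hset : iIndepSet (fun n => {ω | ξ n ω = 1}) P := by
      rw [iIndepSet_iff_meas_biInter hm]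
      intro S
      exact hind.measure_inter_preimage_eq_mul S (sets := fun _ => {1})
        (fun i _ => measurableSet_singleton 1)
    have hsum : ∑' n, P {ω | ξ n ω = 1} = ⊤ := by
      have : ∀ n, P {ω | ξ n ω = 1} = 1 / 3 := fun n => (hu n).2.2.2
      simp_rw [this]
      exact ENNReal.tsum_const_eq_top_of_ne_zero (by norm_num)
    have h := measure_limsup_eq_one hm hset hsum
    have hml : MeasurableSet (limsup (fun n => {ω | ξ n ω = 1}) atTop) :=
      MeasurableSet.measurableSet_limsup hm
    have h2 : ∀ᵐ ω ∂P, ω ∈ limsup (fun n => {ω | ξ n ω = 1}) atTop := by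
      rw [ae_iff]
      exact (prob_compl_eq_zero_iff hml).mpr h
    filter_upwards [h2] with ω hω
    rw [mem_limsup_iff_frequently_mem] at hω
    exact hω
  filter_upwards [hconv, hio] with ω h1 h2
  have h3 : ¬ BddAbove (Set.range fun n => Y n ω) := by
    rw [h1]
    rintro ⟨c, hc⟩
    have h4 : Tendsto (fun n => Y (n + 1) ω - Y n ω) atTop (𝓝 (c - c)) :=
      (hc.comp (tendsto_add_atTop_nat 1)).sub hc
    rw [sub_self] at h4
    have h5 : (fun n => Y (n + 1) ω - Y n ω) = fun n => f (n + 1) ω := by
      ext n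
      rw [hY]
      simp only
      rw [Finset.sum_range_succ]
      ring
    rw [h5] at h4
    have h6 : Tendsto (fun n => f n ω) atTop (𝓝 0) := (tendsto_add_atTop_iff_nat 1).mp h4
    have h7 : ∀ᶠ n in atTop, |f n ω| < 1 := by
      have := h6.abs
      rw [abs_zero] at this
      exact this.eventually_lt_const (by norm_num)
    obtain ⟨n, hn1, hn2⟩ := (h2.and_eventually h7).exists
    rw [hf] at hn2
    simp only [hn1] at hn2
    norm_num at hn2
  intro M
  by_contra hcon
  push Not at hcon
  apply h3
  refine ⟨-M, ?_⟩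
  rintro _ ⟨n, rfl⟩
  have h8 := hcon (n + 1)
  show Y n ω ≤ -M
  have h9 : Y n ω = -((∑ j ∈ Finset.range (n + 1), ξ j ω : ℤ) : ℝ) := by
    rw [hY, hf]
    simp only
    push_cast
    rw [Finset.sum_neg_distrib]
  rw [h9]
  have : (M : ℝ) ≤ ((∑ j ∈ Finset.range (n + 1), ξ j ω : ℤ) : ℝ) := by exact_mod_cast h8
  linarith

theorem lab_replicate (d : Tri → ℤ) (i : Fin 3) (u : Tri) (k : ℕ) :
    lab d (List.replicate k i ++ u) = lab d u +
      ∑ j ∈ Finset.range k, d (List.replicate (j + 1) i ++ u) := by
  induction k with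
  | zero => simp
  | succ k ih =>
    rw [Finset.sum_range_succ, ← add_assoc, ← ih]
    rfl

/-- almost surely the labels along the extreme rays are unbounded below -/
theorem ae_rays {D : Tri → Ω → ℤ} (hind : iIndepFun D P) (hu : ∀ v, IsUnif P (D v)) :
    ∀ᵐ ω ∂P, Rays fun v => D v ω := by
  have key : ∀ (i : Fin 3) (u : Tri), ∀ᵐ ω ∂P, ∀ M : ℤ, ∃ k,
      lab (fun v => D v ω) (List.replicate k i ++ u) < M := by
    intro i u
    have hinj : Function.Injective fun j : ℕ => List.replicate (j + 1) i ++ u := by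
      intro a b hab
      have := congrArg List.length hab
      simp only [List.length_append, List.length_replicate] at this
      omega
    have h := ae_unbdd (hind.precomp hinj) (fun n => hu _)
    filter_upwards [h] with ω hω M
    obtain ⟨k, hk⟩ := hω (M - lab (fun v => D v ω) u)
    refine ⟨k, ?_⟩
    rw [lab_replicate]
    have hk' : ∑ j ∈ Finset.range k, D (List.replicate (j + 1) i ++ u) ω <
        M - lab (fun v => D v ω) u := hk
    omega
  have h1 := ae_all_iff.mpr fun u => key 0 u
  have h2 := ae_all_iff.mpr fun u => key 2 u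
  filter_upwards [h1, h2] with ω hω1 hω2 u M
  exact ⟨hω1 u M, hω2 u M⟩

theorem ae_smallD {D : Tri → Ω → ℤ} (hu : ∀ v, IsUnif P (D v)) :
    ∀ᵐ ω ∂P, Small fun v => D v ω := ae_all_iff.mpr fun v => (hu v).ae_small

theorem isoInf_mono {V E : Type} (G : MGraph V E) (o : V) : Monotone (G.isoInf o) := by
  intro m n hmn
  refine le_iInf fun S => le_iInf fun h1 => le_iInf fun h2 => le_iInf fun h3 => le_iInf fun h4 => ?_
  exact iInf_le_of_le S (iInf_le_of_le h1 (iInf_le_of_le h2
    (iInf_le_of_le (le_trans (by exact_mod_cast hmn) h3) (iInf_le_of_le h4 le_rfl))))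

theorem tendsto_isoInf {V E : Type} (G : MGraph V E) (o : V) :
    Tendsto (G.isoInf o) atTop (𝓝 (G.anchored o)) := tendsto_atTop_iSup (isoInf_mono G o)

end Pool.Agent.R968
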